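import Pool.Agent.Lib.MP_75c153_gt.Pres

/-! Vanishing of the mass at zero of spectral measures. -/

namespace Pool.Agent.Lib.MP_75c153_gt

open Filter Topology Matrix MeasureTheory

/-- Indicator of the nonzero reals. -/
noncomputable def nz (x : ℝ) : ℝ := if x = 0 then 0 else 1

theorem nz_zero : nz 0 = 0 := by simp [nz]

/-- Approximation of the rank from below. -/
theorem Fam.le_mass_Ioi {τ : ℕ → ℝ} {R : ℝ} {w : ℕ → ℝ} {s : ℕ → Multiset ℝ}
    (h : Fam τ R w s) (hlog : ∀ n, 0 ≤ ((s n).map Real.log).sum)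
    (μ : Measure ℝ) [IsFiniteMeasure μ] {S : ℝ} (hμ : μ (Set.Icc 0 S)ᶜ = 0)
    (hm : ∀ k : ℕ, ∫ x, x ^ k ∂μ = τ k) (m : ℝ) (u : ℕ → ℝ) (hu : Tendsto u atTop (𝓝 m))
    (hle : ∀ n, u n ≤ w n * ((s n).map nz).sum) : m ≤ μ.real (Set.Ioi 0) := by
  have hμ' : μ (Set.Icc (-|S|) |S|)ᶜ = 0 :=
    measure_mono_null (Set.compl_subset_compl.2
      (Set.Icc_subset_Icc (by simp) (le_abs_self S))) hμ
  have hcont : Continuous fun x : ℝ => Real.log (max x 1) := by
    apply Continuous.log (by fun_prop)
    intro x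
    exact (lt_of_lt_of_le one_pos (le_max_right _ _)).ne'
  set C : ℝ := ∫ x, Real.log (max x 1) ∂μ with hC
  have key : ∀ L : ℝ, 0 < L → m - C / L ≤ μ.real (Set.Ioi 0) := by
    intro L hL
    have hc2 : Continuous fun x : ℝ => min 1 (|x| * Real.exp L) := by fun_prop
    have t1 := h.tendsto μ hμ' hm _ hc2
    have t2 := hu.sub ((h.tendsto μ hμ' hm _ hcont).div_const L)
    refine le_trans (le_of_tendsto_of_tendsto' t2 t1 fun n => ?_) ?_
    · have h1 : ((s n).map fun x => nz x - (Real.log (max x 1) - Real.log x) / L).sum ≤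
          ((s n).map fun x => min 1 (|x| * Real.exp L)).sum := by
        apply Multiset.sum_map_le_sum_map
        intro x hx
        have hx0 := (h.mem n x hx).1
        have hnn : 0 ≤ min 1 (|x| * Real.exp L) := le_min zero_le_one (by positivity)
        rcases hx0.eq_or_lt with h0 | h0
        · subst h0
          simp [nz]
        · have hd : 0 ≤ Real.log (max x 1) - Real.log x :=
            sub_nonneg.2 (Real.log_le_log h0 (le_max_left _ _))
          rw [nz, if_neg h0.ne']
          rcases le_total 1 (|x| * Real.exp L) with h2 | h2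
          · rw [min_eq_left h2]
            have := div_nonneg hd hL.le
            linarith
          · refine le_trans ?_ hnn
            rw [abs_of_pos h0] at h2
            have h3 := Real.log_le_log (by positivity) h2
            rw [Real.log_mul h0.ne' (Real.exp_pos L).ne', Real.log_exp, Real.log_one] at h3
            have h4 : 0 ≤ Real.log (max x 1) := Real.log_nonneg (le_max_right _ _)
            rw [sub_nonpos, le_div_iff₀ hL]
            linarith
      rw [Multiset.sum_map_sub, Multiset.sum_map_div, Multiset.sum_map_sub] at h1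
      have h2 := mul_le_mul_of_nonneg_left h1 (h.w_nonneg n)
      have h3 : 0 ≤ w n * ((s n).map Real.log).sum / L :=
        div_nonneg (mul_nonneg (h.w_nonneg n) (hlog n)) hL.le
      have h4 := hle n
      have e : w n * (((s n).map nz).sum - (((s n).map fun x => Real.log (max x 1)).sum -
          ((s n).map fun x => Real.log x).sum) / L) = w n * ((s n).map nz).sum -
          w n * ((s n).map fun x => Real.log (max x 1)).sum / L +
          w n * ((s n).map Real.log).sum / L := by ring
      rw [e] at h2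
      linarith
    · rw [← integral_indicator_one measurableSet_Ioi]
      apply integral_mono_ae (integrable_of_cpt hμ' hc2)
        ((integrable_const (1 : ℝ)).indicator measurableSet_Ioi)
      have h0 : ∀ᵐ x ∂μ, x ∈ Set.Icc 0 S := mem_ae_iff.2 hμ
      filter_upwards [h0] with x hx
      rcases hx.1.eq_or_lt with h1 | h1
      · subst h1
        simp
      · rw [Set.indicator_of_mem (Set.mem_Ioi.2 h1)]
        exact min_le_left _ _
  have t : Tendsto (fun L : ℝ => m - C / L) atTop (𝓝 (m - 0)) :=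
    (tendsto_const_nhds.div_atTop tendsto_id).const_sub m
  rw [sub_zero] at t
  exact le_of_tendsto t ((eventually_gt_atTop 0).mono key)

theorem mass_split (μ : Measure ℝ) [IsFiniteMeasure μ] {S : ℝ} (hμ : μ (Set.Icc 0 S)ᶜ = 0) :
    μ.real Set.univ = μ.real {0} + μ.real (Set.Ioi 0) := by
  rw [← measureReal_union (by simp) measurableSet_Ioi]
  apply measureReal_congr
  have h0 : ∀ᵐ x ∂μ, x ∈ Set.Icc 0 S := mem_ae_iff.2 hμ
  filter_upwards [h0] with x hx
  apply propext
  change True ↔ x ∈ ({0} ∪ Set.Ioi 0 : Set ℝ)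
  rcases hx.1.eq_or_lt with h1 | h1
  · simp [← h1]
  · simp [h1.le]

/-- A uniform lower bound for regularised logarithmic integrals excludes an atom at zero. -/
theorem no_atom_of_reg (μ : Measure ℝ) [IsFiniteMeasure μ] {S : ℝ}
    (hμ : μ (Set.Icc (-S) S)ᶜ = 0) (c : ℝ)
    (hc : ∀ ε : ℝ, 0 < ε → c ≤ ∫ x, Real.log (|x| + ε) ∂μ) : μ.real {0} = 0 := by
  set C := ∫ x, Real.log (|x| + 1) ∂μ
  have key : ∀ L : ℝ, 0 < L → μ.real {0} ≤ (C - c) / L := by
    intro L hL
    have h1 := hc _ (Real.exp_pos (-L))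
    have h2 : ∫ x, Real.log (|x| + Real.exp (-L)) ∂μ ≤
        ∫ x, (Real.log (|x| + 1) - L * ({0} : Set ℝ).indicator 1 x) ∂μ := by
      apply integral_mono (integrable_of_cpt hμ (logeps_cont (Real.exp_pos _)))
        ((integrable_of_cpt hμ (logeps_cont one_pos)).sub
          (((integrable_const (1 : ℝ)).indicator (measurableSet_singleton 0)).const_mul L))
      intro x
      by_cases hx : x = 0
      · subst hx
        simp
      · simp only [Set.mem_singleton_iff, hx, not_false_eq_true, Set.indicator_of_notMem,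
          mul_zero, sub_zero, Pi.sub_apply]
        apply Real.log_le_log (by positivity)
        have := Real.exp_le_one_iff.2 (neg_nonpos.2 hL.le)
        linarith
    have i2 : Integrable (fun x : ℝ => L * ({0} : Set ℝ).indicator (1 : ℝ → ℝ) x) μ :=
      ((integrable_const (1 : ℝ)).indicator (measurableSet_singleton 0)).const_mul L
    rw [integral_sub (integrable_of_cpt hμ (logeps_cont one_pos)) i2,
      integral_const_mul, integral_indicator_one (measurableSet_singleton 0)] at h2
    rw [le_div_iff₀ hL]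
    linarith
  have t : Tendsto (fun L : ℝ => (C - c) / L) atTop (𝓝 0) :=
    tendsto_const_nhds.div_atTop tendsto_id
  exact le_antisymm (ge_of_tendsto t ((eventually_gt_atTop 0).mono key)) measureReal_nonneg

variable {G : Type} [Group G]

theorem spec_mass {ι : Type} [Fintype ι] [DecidableEq ι] {A : Matrix ι ι (MonoidAlgebra ℤ G)}
    {μ : Measure ℝ} (h : IsSpecMeasure A μ) : μ.real Set.univ = Fintype.card ι := by
  have := h.2.2 0
  simpa [vnTrace, MonoidAlgebra.one_def] using this

open Classical in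
theorem nz_sum_eq_rank (N : ℕ → Subgroup G) [∀ n, (N n).Normal] [∀ n, (N n).FiniteIndex]
    {ι κ : Type} [Fintype ι] [Fintype κ] [DecidableEq ι] (c : Matrix ι κ (MonoidAlgebra ℤ G))
    (n : ℕ) : letI : Fintype (G ⧸ N n) := Fintype.ofFinite _
      ((chainEigs N (cpos_mul_adj c) n).map nz).sum = (cover (N n) c).rank := by
  let : Fintype (G ⧸ N n) := Fintype.ofFinite _
  rw [← rank_self_mul_transpose, ← cover_adj, ← cover_mul, chainEigs, eigs_sum,
    (cpos_mul_adj c (N n)).isHermitian.rank_eq_card_non_zero_eigs, Fintype.card_subtype]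
  simp [nz, Finset.sum_ite]

theorem nz_sum_mono (N : ℕ → Subgroup G) [∀ n, (N n).Normal] [∀ n, (N n).FiniteIndex]
    {ι κ ι' κ' : Type} [Fintype ι] [Fintype κ] [DecidableEq ι] [Fintype ι'] [Fintype κ']
    [DecidableEq ι'] (c : Matrix ι κ (MonoidAlgebra ℤ G)) (E : Matrix ι' ι (MonoidAlgebra ℤ G))
    (F : Matrix κ κ' (MonoidAlgebra ℤ G)) (n : ℕ) :
    ((chainEigs N (cpos_mul_adj (E * c * F)) n).map nz).sum ≤
      ((chainEigs N (cpos_mul_adj c) n).map nz).sum := by
  let : Fintype (G ⧸ N n) := Fintype.ofFinite _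
  rw [nz_sum_eq_rank, nz_sum_eq_rank, cover_mul, cover_mul]
  exact Nat.cast_le.2 ((rank_mul_le_left _ _).trans (rank_mul_le_right _ _))

/-- The normalised rank of `1 - z` in the congruence quotients. -/
theorem nz_sum_z (n : ℕ) : 1 - 1 / (5 : ℝ) ^ n ≤ 1 / ((chain5 n).index : ℝ) *
    ((chainEigs chain5 (cpos_mul_adj (one11 (1 - sg gz))) n).map nz).sum := by
  classical
  set q := 5 ^ n with hq
  have hq0 : q ≠ 0 := by positivity
  have : NeZero q := ⟨hq0⟩
  have hidx : (chain5 n).index = q ^ 3 := index_ker toH toH_surjective q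
  rw [chain_eq_blocks toH toH_surjective chain5 n q rfl _ _ nz_zero, hidx, sum_map_finsetSum]
  have hblock : ∀ p : ZMod q × ZMod q, (q : ℝ) - (if p.2 = 0 then (q : ℝ) else 0) ≤
      ((bEigs toH q 1 one_ne_zero (1 - sg gz) p).map nz).sum := by
    intro p
    split_ifs with h0
    · rw [sub_self]
      apply Multiset.sum_nonneg
      intro y hy
      obtain ⟨x, -, rfl⟩ := Multiset.mem_map.1 hy
      unfold nz
      split_ifs <;> norm_num
    · have hB : blockB toH q 1 one_ne_zero (1 - sg gz) p =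
          Matrix.diagonal fun _ => 1 - ZMod.stdAddChar p.2 := by
        ext i j
        rw [blockB, map_sub, map_one, sg, rep_single]
        by_cases hij : i = j <;> simp [toH_z, Heis.mono, hij]
      have hne : 1 - ZMod.stdAddChar p.2 ≠ 0 := by
        intro h
        apply h0
        apply ZMod.injective_stdAddChar
        rw [AddChar.map_zero_eq_one]
        exact (sub_eq_zero.1 h).symm
      obtain ⟨-, e2⟩ := bEigs_log toH q 1 one_ne_zero (1 - sg gz) p (by
        rw [hB, det_diagonal]
        exact Finset.prod_ne_zero_iff.2 fun _ _ => hne)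
      rw [Multiset.map_congr rfl (g := fun _ => (1 : ℝ)) fun x hx => by simp [nz, (e2 x hx).ne'],
        Multiset.map_const', Multiset.sum_replicate, bEigs_card]
      simp
  have hsum := Finset.sum_le_sum fun p (_ : p ∈ Finset.univ) => hblock p
  have hl : (0 : ℝ) < q := by exact_mod_cast Nat.pos_of_ne_zero hq0
  refine le_trans (le_of_eq ?_) (mul_le_mul_of_nonneg_left hsum (by positivity))
  rw [Fintype.sum_prod_type]
  simp only [Finset.sum_sub_distrib, Finset.sum_ite_eq', Finset.mem_univ,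
    if_true, Finset.sum_const, Finset.card_univ, ZMod.card, nsmul_eq_mul]
  have : (5 : ℝ) ^ n = q := by simp [hq]
  rw [this]
  push_cast
  field_simp

theorem tendsto_frac (k : ℝ) : Tendsto (fun n : ℕ => k * (1 - 1 / (5 : ℝ) ^ n)) atTop (𝓝 k) := by
  have : Tendsto (fun n : ℕ => k * (1 - 1 / (5 : ℝ) ^ n)) atTop (𝓝 (k * (1 - 0))) :=
    ((tendsto_const_nhds.div_atTop
      (tendsto_pow_atTop_atTop_of_one_lt (by norm_num))).const_sub 1).const_mul k
  simpa using this

/-- A matrix containing `1 - z` (up to multiplication on both sides) has rank at least one. -/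
theorem one_le_mass {ι κ : Type} [Fintype ι] [Fintype κ] [DecidableEq ι]
    (c : Matrix ι κ (MonoidAlgebra ℤ (Pi1 heisRel)))
    (E : Matrix (Fin 1) ι (MonoidAlgebra ℤ (Pi1 heisRel)))
    (F : Matrix κ (Fin 1) (MonoidAlgebra ℤ (Pi1 heisRel))) (h : E * c * F = one11 (1 - sg gz)) (μ : Measure ℝ)
    (hμ : IsSpecMeasure (c * adj c) μ) {S : ℝ} (hS : μ (Set.Icc 0 S)ᶜ = 0) :
    1 ≤ μ.real (Set.Ioi 0) := by
  have := hμ.1
  refine (chain_fam chain5 chain5_avoid (cpos_mul_adj c)).le_mass_Ioi
    (chain_log_nonneg chain5 _) μ hS hμ.2.2 1 _ (tendsto_frac 1) fun n => ?_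
  rw [one_mul]
  refine (nz_sum_z n).trans (mul_le_mul_of_nonneg_left ?_ (by positivity))
  have := nz_sum_mono chain5 c E F n
  simpa only [h] using this

theorem diag2_pow (a b : MonoidAlgebra ℤ G) (T : MonoidAlgebra ℤ G →+ ℝ) (k : ℕ) :
    mtr T ((Matrix.diagonal ![a, b]) ^ k) = T (a ^ k) + T (b ^ k) := by
  rw [Matrix.diagonal_pow]
  simp [mtr]

theorem mtr_one11 (a : MonoidAlgebra ℤ G) (T : MonoidAlgebra ℤ G →+ ℝ) (k : ℕ) :
    mtr T ((one11 a * adj (one11 a)) ^ k) = T ((a * bar a) ^ k) := by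
  simp [mtr, one11_pow]

theorem two_le_mass (μ : Measure ℝ) (hμ : IsSpecMeasure (bd₂ heisRel * adj (bd₂ heisRel)) μ)
    {S : ℝ} (hS : μ (Set.Icc 0 S)ᶜ = 0) : 2 ≤ μ.real (Set.Ioi 0) := by
  have := hμ.1
  refine (chain_fam chain5 chain5_avoid (cpos_mul_adj (bd₂ heisRel))).le_mass_Ioi
    (chain_log_nonneg chain5 _) μ hS hμ.2.2 2 _ (tendsto_frac 2) fun n => ?_
  set u : MonoidAlgebra ℤ (Pi1 heisRel) := 1 - sg gz
  have h : (!![0, 1, 0, 0; 0, 0, 1, 0] : Matrix (Fin 2) (Fin 4) (MonoidAlgebra ℤ (Pi1 heisRel))) *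
      bd₂ heisRel * (!![1, 0; 0, 1; 0, 0] : Matrix (Fin 3) (Fin 2) (MonoidAlgebra ℤ (Pi1 heisRel))) =
      Matrix.diagonal ![u, u] := by
    rw [bd₂_eq]
    ext1 i j
    fin_cases i <;> fin_cases j <;>
      simp [Matrix.mul_apply, Fin.sum_univ_four, Fin.sum_univ_three, u]
  have h1 := nz_sum_mono chain5 (bd₂ heisRel) (!![0, 1, 0, 0; 0, 0, 1, 0])
    (!![1, 0; 0, 1; 0, 0] : Matrix (Fin 3) (Fin 2) (MonoidAlgebra ℤ (Pi1 heisRel))) n
  simp only [h] at h1
  have hd : Matrix.diagonal ![u, u] * adj (Matrix.diagonal ![u, u]) =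
      Matrix.diagonal ![u * bar u, u * bar u] := by
    ext1 i j
    fin_cases i <;> fin_cases j <;> simp [Matrix.mul_apply, adj]
  have h2 := chain_add chain5 (cpos_mul_adj (Matrix.diagonal ![u, u])) (cpos_mul_adj (one11 u))
    (cpos_mul_adj (one11 u)) (fun T _ k => by rw [hd, diag2_pow, mtr_one11]) n nz nz_zero
  have h3 := nz_sum_z n
  have h4 := mul_le_mul_of_nonneg_left h1 (show 0 ≤ 1 / ((chain5 n).index : ℝ) by positivity)
  rw [h2, mul_add] at h4
  linarith

end Pool.Agent.Lib.MP_75c153_gt
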