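import Pool.Agent.Lib.MP_75c153_gt.Cover

/-! Finite covers along a residual chain. -/

namespace Pool.Agent.Lib.MP_75c153_gt

open MeasureTheory Filter Topology Polynomial Matrix

variable {G : Type} [Group G]

open Classical in
/-- The permutation representation on a finite quotient. -/
noncomputable def regRep (N : Subgroup G) [N.Normal] [Fintype (G ⧸ N)] :
    G →* Matrix (G ⧸ N) (G ⧸ N) ℝ where
  toFun g := Matrix.of fun u v => if u * (g : G ⧸ N) = v then 1 else 0
  map_one' := by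
    ext u v
    simp [Matrix.one_apply]
  map_mul' g h := by
    ext u v
    simp only [Matrix.mul_apply, of_apply, QuotientGroup.mk_mul, ite_mul, one_mul, zero_mul,
      Finset.sum_ite_eq, Finset.mem_univ, if_true, mul_assoc]
    congr

open Classical in
theorem cover_eq_blk (N : Subgroup G) [N.Normal] [Fintype (G ⧸ N)] {ι κ : Type}
    (A : Matrix ι κ (MonoidAlgebra ℤ G)) : cover N A = blk (regRep N) A := by
  ext p q
  simp only [cover, blk, of_apply, rep_apply, Finsupp.sum, Matrix.sum_apply, Matrix.smul_apply,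
    regRep, MonoidHom.coe_mk, OneHom.coe_mk]
  refine Finset.sum_congr rfl fun g _ => ?_
  split_ifs <;> simp

open Classical in
theorem regRep_inv (N : Subgroup G) [N.Normal] [Fintype (G ⧸ N)] (g : G) :
    regRep N g⁻¹ = (regRep N g)ᴴ := by
  ext u v
  simp only [regRep, MonoidHom.coe_mk, OneHom.coe_mk, of_apply, conjTranspose_apply, star_trivial,
    QuotientGroup.mk_inv]
  congr 1
  rw [mul_inv_eq_iff_eq_mul]
  exact propext eq_comm

open Classical in
theorem regRep_rows (N : Subgroup G) [N.Normal] [Fintype (G ⧸ N)] (g : G) (u : G ⧸ N) :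
    ∑ v, ‖regRep N g u v‖ ≤ 1 := by
  simp only [regRep, MonoidHom.coe_mk, OneHom.coe_mk, of_apply, apply_ite norm, norm_one,
    norm_zero, Finset.sum_ite_eq, Finset.mem_univ, if_true, le_refl]

open Classical in
theorem regRep_trace (N : Subgroup G) [N.Normal] [Fintype (G ⧸ N)] (g : G) :
    (regRep N g).trace = if g ∈ N then (N.index : ℝ) else 0 := by
  simp only [regRep, MonoidHom.coe_mk, OneHom.coe_mk, trace, diag, of_apply, mul_eq_left,
    QuotientGroup.eq_one_iff]
  split_ifs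
  · simp [Subgroup.index_eq_card]
  · simp

open Classical in
theorem cover_int (N : Subgroup G) [N.Normal] {ι κ : Type} (A : Matrix ι κ (MonoidAlgebra ℤ G))
    (p : (G ⧸ N) × ι) (q : (G ⧸ N) × κ) : ∃ z : ℤ, cover N A p q = z := by
  refine ⟨(A p.2 q.2).coeff.sum fun g c => if p.1 * (g : G ⧸ N) = q.1 then c else 0, ?_⟩
  simp [cover, Finsupp.sum]

/-- For a family of subgroups that eventually avoids every nontrivial element, the weighted sum of
coefficients over the subgroup is eventually the coefficient of the identity. -/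
theorem eventually_coeff (N : ℕ → Subgroup G) [∀ n, DecidablePred (· ∈ N n)]
    (hN : ∀ g, g ≠ 1 → ∀ᶠ n in atTop, g ∉ N n) {𝕜 : Type} [RCLike 𝕜] (χ : G → 𝕜) (hχ : χ 1 = 1)
    (a : MonoidAlgebra ℤ G) : ∀ᶠ n in atTop,
      ∑ g ∈ a.coeff.support, (a.coeff g : 𝕜) * (if g ∈ N n then χ g else 0) = a.coeff 1 := by
  classical
  have h : ∀ᶠ n in atTop, ∀ g ∈ a.coeff.support, g ≠ 1 → g ∉ N n := by
    rw [Finset.eventually_all]
    intro g _
    by_cases hg : g = 1
    · simp [hg]
    · filter_upwards [hN g hg] with n hn _ using hn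
  filter_upwards [h] with n hn
  rw [Finset.sum_eq_single 1]
  · simp [hχ]
  · intro g hg hg1
    simp [hn g hg hg1]
  · intro h1
    simp [Finsupp.notMem_support_iff.1 h1]

theorem avoid_of_chain (N : ℕ → Subgroup G) (hanti : Antitone N) (hinf : ⨅ n, N n = ⊥) :
    ∀ g, g ≠ 1 → ∀ᶠ n in atTop, g ∉ N n := by
  intro g hg
  have : ¬ ∀ n, g ∈ N n := by
    intro h
    exact hg (Subgroup.mem_bot.1 (hinf ▸ Subgroup.mem_iInf.2 h))
  obtain ⟨m, hm⟩ := not_forall.1 this
  filter_upwards [eventually_ge_atTop m] with n hn h using hm (hanti hn h)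

/-- Positivity of a matrix in all finite covers. -/
def CPos {ι : Type} [Fintype ι] (A : Matrix ι ι (MonoidAlgebra ℤ G)) : Prop :=
  ∀ (N : Subgroup G) [N.Normal] [Fintype (G ⧸ N)], (cover N A).PosSemidef

open Classical in
theorem cover_mul (N : Subgroup G) [N.Normal] [Fintype (G ⧸ N)] {ι κ ν : Type} [Fintype κ]
    (A : Matrix ι κ (MonoidAlgebra ℤ G)) (B : Matrix κ ν (MonoidAlgebra ℤ G)) :
    cover N (A * B) = cover N A * cover N B := by
  simp only [cover_eq_blk, blk_mul]

open Classical in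
theorem cover_add (N : Subgroup G) [N.Normal] [Fintype (G ⧸ N)] {ι κ : Type}
    (A B : Matrix ι κ (MonoidAlgebra ℤ G)) : cover N (A + B) = cover N A + cover N B := by
  simp only [cover_eq_blk, blk_add]

open Classical in
theorem cover_adj (N : Subgroup G) [N.Normal] [Fintype (G ⧸ N)] {ι κ : Type}
    (A : Matrix ι κ (MonoidAlgebra ℤ G)) : cover N (adj A) = (cover N A)ᵀ := by
  rw [cover_eq_blk, cover_eq_blk, blk_adj _ (regRep_inv N), conjTranspose_eq_transpose_of_trivial]

theorem cpos_mul_adj {ι κ : Type} [Fintype ι] [Fintype κ] (c : Matrix ι κ (MonoidAlgebra ℤ G)) :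
    CPos (c * adj c) := by
  intro N _ _
  rw [cover_mul, cover_adj, ← conjTranspose_eq_transpose_of_trivial]
  exact posSemidef_self_mul_conjTranspose _

theorem cpos_adj_mul {ι κ : Type} [Fintype ι] [Fintype κ] (c : Matrix ι κ (MonoidAlgebra ℤ G)) :
    CPos (adj c * c) := by
  intro N _ _
  rw [cover_mul, cover_adj, ← conjTranspose_eq_transpose_of_trivial]
  exact posSemidef_conjTranspose_mul_self _

theorem cpos_lap {ι κ ν : Type} [Fintype ι] [Fintype κ] [Fintype ν]
    (c : Matrix ι κ (MonoidAlgebra ℤ G)) (d : Matrix ν ι (MonoidAlgebra ℤ G)) :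
    CPos (lap c d) := by
  intro N _ _
  rw [lap, cover_add]
  exact (cpos_mul_adj c N).add (cpos_adj_mul d N)

open Classical in
theorem power_sum_cover {ι : Type} [Fintype ι] [DecidableEq ι]
    {A : Matrix ι ι (MonoidAlgebra ℤ G)} (hA : CPos A) (N : Subgroup G) [N.Normal]
    [Fintype (G ⧸ N)] (k : ℕ) :
    ((eigs (hA N).isHermitian).map fun x => x ^ k).sum =
      ∑ i, (rep (regRep N) ((A ^ k) i i)).trace := by
  have h := trace_pow_eq (hA N).isHermitian k
  simp only [RCLike.ofReal_real_eq_id, id] at h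
  rw [← h, cover_eq_blk, ← trace_blk, blk_pow]

section chain

variable (N : ℕ → Subgroup G) [∀ n, (N n).Normal] [∀ n, (N n).FiniteIndex]

open Classical in
/-- The spectra of the covers of a positive matrix. -/
noncomputable def chainEigs {ι : Type} [Fintype ι] [DecidableEq ι]
    {A : Matrix ι ι (MonoidAlgebra ℤ G)} (hA : CPos A) (n : ℕ) : Multiset ℝ :=
  letI : Fintype (G ⧸ N n) := Fintype.ofFinite _
  eigs (hA (N n)).isHermitian

open Classical in
theorem chain_fam (hN : ∀ g, g ≠ 1 → ∀ᶠ n in atTop, g ∉ N n) {ι : Type} [Fintype ι]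
    [DecidableEq ι] {A : Matrix ι ι (MonoidAlgebra ℤ G)} (hA : CPos A) :
    Fam (fun k => (vnTrace (A ^ k) : ℝ)) (∑ i, ∑ j, l1 (A i j)) (fun n => 1 / (N n).index)
      (chainEigs N hA) where
  w_nonneg n := by positivity
  mem n x hx := by
    let : Fintype (G ⧸ N n) := Fintype.ofFinite _
    refine ⟨eigs_nonneg (hA (N n)) x hx, (le_abs_self x).trans (eigs_abs_le _ ?_ x hx)⟩
    intro p
    rw [cover_eq_blk]
    exact blk_rows _ (regRep_rows (N n)) A p
  mom k := by
    have h : ∀ᶠ n in atTop, ∀ i ∈ (Finset.univ : Finset ι),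
        ∑ g ∈ ((A ^ k) i i).coeff.support, (((A ^ k) i i).coeff g : ℝ) *
          (if g ∈ N n then (1 : ℝ) else 0) = ((A ^ k) i i).coeff 1 := by
      rw [Finset.eventually_all]
      exact fun i _ => eventually_coeff N hN (fun _ => (1 : ℝ)) rfl _
    filter_upwards [h] with n hn
    let : Fintype (G ⧸ N n) := Fintype.ofFinite _
    have hidx : ((N n).index : ℝ) ≠ 0 := by exact_mod_cast Subgroup.FiniteIndex.index_ne_zero
    rw [chainEigs, power_sum_cover hA, vnTrace, Int.cast_sum, Finset.mul_sum]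
    refine Finset.sum_congr rfl fun i hi => ?_
    rw [← hn i hi, trace_rep, Finset.mul_sum]
    refine Finset.sum_congr rfl fun g _ => ?_
    rw [regRep_trace]
    split_ifs
    · field_simp
    · simp

open Classical in
theorem chain_log_nonneg {ι : Type} [Fintype ι] [DecidableEq ι]
    {A : Matrix ι ι (MonoidAlgebra ℤ G)} (hA : CPos A) (n : ℕ) :
    0 ≤ ((chainEigs N hA n).map Real.log).sum := by
  let : Fintype (G ⧸ N n) := Fintype.ofFinite _
  exact sum_log_eigs_nonneg (hA (N n)) (cover_int (N n) A)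

/-- Existence of the spectral measure and determinant class. -/
theorem exists_specMeasure (hN : ∀ g, g ≠ 1 → ∀ᶠ n in atTop, g ∉ N n) {ι : Type} [Fintype ι]
    [DecidableEq ι] {A : Matrix ι ι (MonoidAlgebra ℤ G)} (hA : CPos A) :
    ∃ μ : Measure ℝ, IsSpecMeasure A μ ∧ (∃ R, μ (Set.Icc 0 R)ᶜ = 0) ∧
      IntegrableOn Real.log (Set.Ioi 0) μ := by
  have hF := chain_fam N hN hA
  obtain ⟨μ, hfin, hsupp, hm⟩ := hF.exists_measure
  have hsupp' : μ (Set.Icc (-|∑ i, ∑ j, l1 (A i j)|) |∑ i, ∑ j, l1 (A i j)|)ᶜ = 0 :=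
    measure_mono_null (Set.compl_subset_compl.2 (Set.Icc_subset_Icc (by simp) le_rfl)) hsupp
  exact ⟨μ, ⟨hfin, ⟨_, hsupp'⟩, hm⟩, ⟨_, hsupp⟩,
    hF.integrableOn_log (chain_log_nonneg N hA) μ hsupp' hm⟩

end chain

/-! Trace identities. -/

section traces

variable {V : Type} [AddCommMonoid V] (T : MonoidAlgebra ℤ G →+ V)

/-- The trace of a matrix with respect to an additive functional. -/
noncomputable def mtr {ι : Type} [Fintype ι] (A : Matrix ι ι (MonoidAlgebra ℤ G)) : V :=
  ∑ i, T (A i i)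

theorem mtr_add {ι : Type} [Fintype ι] (A B : Matrix ι ι (MonoidAlgebra ℤ G)) :
    mtr T (A + B) = mtr T A + mtr T B := by
  simp [mtr, Finset.sum_add_distrib]

theorem mtr_comm (hT : ∀ a b, T (a * b) = T (b * a)) {ι κ : Type} [Fintype ι] [Fintype κ]
    (A : Matrix ι κ (MonoidAlgebra ℤ G)) (B : Matrix κ ι (MonoidAlgebra ℤ G)) :
    mtr T (A * B) = mtr T (B * A) := by
  simp only [mtr, Matrix.mul_apply, map_sum]
  rw [Finset.sum_comm]
  simp only [hT (A _ _)]

theorem add_pow_of_orth {R : Type} [Ring R] (P Q : R) (h1 : P * Q = 0) (h2 : Q * P = 0) (k : ℕ) :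
    (P + Q) ^ (k + 1) = P ^ (k + 1) + Q ^ (k + 1) := by
  induction k with
  | zero => simp
  | succ k ih =>
    rw [pow_succ, ih, add_mul, mul_add, mul_add, pow_succ P k, pow_succ Q k, mul_assoc _ P Q, h1,
      mul_assoc _ Q P, h2, pow_succ P, pow_succ Q, pow_succ P, pow_succ Q]
    simp

theorem mul_pow_succ_eq {ι κ : Type} [Fintype ι] [Fintype κ] [DecidableEq ι] [DecidableEq κ]
    (A : Matrix ι κ (MonoidAlgebra ℤ G)) (B : Matrix κ ι (MonoidAlgebra ℤ G)) (k : ℕ) :
    (A * B) ^ (k + 1) = A * ((B * A) ^ k * B) := by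
  induction k with
  | zero => simp
  | succ k ih =>
    rw [pow_succ, ih, pow_succ]
    simp only [Matrix.mul_assoc]

theorem mtr_pow_comm (hT : ∀ a b, T (a * b) = T (b * a)) {ι κ : Type} [Fintype ι] [Fintype κ]
    [DecidableEq ι] [DecidableEq κ] (A : Matrix ι κ (MonoidAlgebra ℤ G))
    (B : Matrix κ ι (MonoidAlgebra ℤ G)) (k : ℕ) :
    mtr T ((A * B) ^ (k + 1)) = mtr T ((B * A) ^ (k + 1)) := by
  rw [mul_pow_succ_eq, mtr_comm T hT, pow_succ, Matrix.mul_assoc]

theorem mtr_lap_pow (hT : ∀ a b, T (a * b) = T (b * a)) {ι κ ν : Type} [Fintype ι] [Fintype κ]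
    [Fintype ν] [DecidableEq ι] [DecidableEq ν] (c : Matrix ι κ (MonoidAlgebra ℤ G))
    (d : Matrix ν ι (MonoidAlgebra ℤ G)) (h : d * c = 0) (k : ℕ) :
    mtr T (lap c d ^ (k + 1)) =
      mtr T ((c * adj c) ^ (k + 1)) + mtr T ((d * adj d) ^ (k + 1)) := by
  have h' : adj c * adj d = 0 := by rw [← adj_mul, h, adj_zero]
  rw [lap, add_pow_of_orth, mtr_add, mtr_pow_comm T hT (adj d)]
  · rw [Matrix.mul_assoc, ← Matrix.mul_assoc (adj c), h']
    simp
  · rw [Matrix.mul_assoc, ← Matrix.mul_assoc d, h]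
    simp

end traces

/-- The coefficient of the identity as an additive functional. -/
noncomputable def trInf : MonoidAlgebra ℤ G →+ ℝ where
  toFun a := (a.coeff 1 : ℝ)
  map_zero' := by simp
  map_add' a b := by simp

theorem trInf_comm (a b : MonoidAlgebra ℤ G) : trInf (a * b) = trInf (b * a) := by
  simp [trInf, coeff_one_comm a b]

theorem vnTrace_eq {ι : Type} [Fintype ι] (A : Matrix ι ι (MonoidAlgebra ℤ G)) :
    (vnTrace A : ℝ) = mtr trInf A := by
  simp [vnTrace, mtr, trInf]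

open Classical in
/-- The trace in the regular representation of a finite quotient. -/
noncomputable def trFin (N : Subgroup G) [N.Normal] [Fintype (G ⧸ N)] :
    MonoidAlgebra ℤ G →+ ℝ where
  toFun a := (rep (regRep N) a).trace
  map_zero' := by simp
  map_add' a b := by simp

theorem trFin_comm (N : Subgroup G) [N.Normal] [Fintype (G ⧸ N)] (a b : MonoidAlgebra ℤ G) :
    trFin N (a * b) = trFin N (b * a) := by
  simp only [trFin, AddMonoidHom.coe_mk, ZeroHom.coe_mk, map_mul]
  exact trace_mul_comm _ _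

/-- Additivity of the logarithmic determinant at the level of finite covers. -/
theorem chain_add (N : ℕ → Subgroup G) [∀ n, (N n).Normal] [∀ n, (N n).FiniteIndex]
    {ι κ ν : Type} [Fintype ι] [Fintype κ] [Fintype ν] [DecidableEq ι] [DecidableEq κ]
    [DecidableEq ν] {A : Matrix ι ι (MonoidAlgebra ℤ G)} {B : Matrix κ κ (MonoidAlgebra ℤ G)}
    {C : Matrix ν ν (MonoidAlgebra ℤ G)} (hA : CPos A) (hB : CPos B) (hC : CPos C)
    (h : ∀ T : MonoidAlgebra ℤ G →+ ℝ, (∀ a b, T (a * b) = T (b * a)) → ∀ k : ℕ,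
      mtr T (A ^ (k + 1)) = mtr T (B ^ (k + 1)) + mtr T (C ^ (k + 1))) (n : ℕ)
    (f : ℝ → ℝ) (hf : f 0 = 0) :
    ((chainEigs N hA n).map f).sum =
      ((chainEigs N hB n).map f).sum + ((chainEigs N hC n).map f).sum := by
  let : Fintype (G ⧸ N n) := Fintype.ofFinite _
  rw [← Multiset.sum_add, ← Multiset.map_add]
  refine multiset_sum_eq_of_powers _ _ (fun k => ?_) _ hf
  rw [Multiset.map_add, Multiset.sum_add, chainEigs, chainEigs, chainEigs, power_sum_cover hA,
    power_sum_cover hB, power_sum_cover hC]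
  exact h (trFin (N n)) (trFin_comm (N n)) k

/-- Additivity of the logarithmic Fuglede-Kadison determinant. -/
theorem logDetFK_add {ι κ ν : Type} [Fintype ι] [Fintype κ] [Fintype ν] [DecidableEq ι]
    [DecidableEq κ] [DecidableEq ν] {A : Matrix ι ι (MonoidAlgebra ℤ G)}
    {B : Matrix κ κ (MonoidAlgebra ℤ G)} {C : Matrix ν ν (MonoidAlgebra ℤ G)}
    {μA μB μC : Measure ℝ} (hA : IsSpecMeasure A μA) (hB : IsSpecMeasure B μB)
    (hC : IsSpecMeasure C μC) (iB : IntegrableOn Real.log (Set.Ioi 0) μB)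
    (iC : IntegrableOn Real.log (Set.Ioi 0) μC)
    (h : ∀ T : MonoidAlgebra ℤ G →+ ℝ, (∀ a b, T (a * b) = T (b * a)) → ∀ k : ℕ,
      mtr T (A ^ (k + 1)) = mtr T (B ^ (k + 1)) + mtr T (C ^ (k + 1))) :
    μA.restrict (Set.Ioi 0) = μB.restrict (Set.Ioi 0) + μC.restrict (Set.Ioi 0) ∧
      logDetFK μA = logDetFK μB + logDetFK μC := by
  obtain ⟨fA, ⟨RA, sA⟩, mA⟩ := hA
  obtain ⟨fB, ⟨RB, sB⟩, mB⟩ := hB
  obtain ⟨fC, ⟨RC, sC⟩, mC⟩ := hC
  have e : μA.restrict (Set.Ioi 0) = (μB + μC).restrict (Set.Ioi 0) := by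
    refine restrict_eq_of_moments μA (μB + μC) sA (S := max RB RC) ?_ fun k => ?_
    · simp [cpt_mono sB (le_max_left RB RC), cpt_mono sC (le_max_right RB RC)]
    · rw [integral_add_measure (integrable_of_cpt sB (by fun_prop))
        (integrable_of_cpt sC (by fun_prop)), mA, mB, mC, vnTrace_eq, vnTrace_eq, vnTrace_eq]
      exact h trInf trInf_comm k
  rw [Measure.restrict_add] at e
  refine ⟨e, ?_⟩
  rw [logDetFK, e, integral_add_measure iB iC]
  rfl

end Pool.Agent.Lib.MP_75c153_gt
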