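import Pool.Agent.Lib.MP_75c153_gt.Spec

/-! Integrability of the logarithm and lower bounds for logarithmic integrals. -/

namespace Pool.Agent.Lib.MP_75c153_gt

open MeasureTheory Filter Topology

/-- Continuous approximation from below of the negative part of the logarithm. -/
noncomputable def cut (m : ℕ) (x : ℝ) : ℝ :=
  min 1 (max 0 ((m + 1) * x - 1)) * max (-Real.log (max x (1 / (m + 1)))) 0

theorem cut_cont (m : ℕ) : Continuous (cut m) := by
  unfold cut
  have : Continuous fun x : ℝ => Real.log (max x (1 / (m + 1))) := by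
    apply Continuous.log (by fun_prop)
    intro x
    have : (0 : ℝ) < 1 / (m + 1) := by positivity
    exact (lt_of_lt_of_le this (le_max_right _ _)).ne'
  fun_prop

theorem cut_nonneg (m : ℕ) (x : ℝ) : 0 ≤ cut m x :=
  mul_nonneg (le_min zero_le_one (le_max_left _ _)) (le_max_right _ _)

theorem cut_le (m : ℕ) (x : ℝ) : cut m x ≤ max (-Real.log x) 0 := by
  unfold cut
  rcases le_or_gt x (1 / (m + 1)) with h | h
  · have : (m + 1) * x - 1 ≤ 0 := by
      rw [le_div_iff₀ (by positivity)] at h
      linarith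
    rw [max_eq_left this, min_eq_right zero_le_one, zero_mul]
    exact le_max_right _ _
  · rw [max_eq_left h.le]
    exact mul_le_of_le_one_left (le_max_right _ _) (min_le_left _ _)

theorem cut_eventually {x : ℝ} (hx : 0 < x) :
    ∀ᶠ m in atTop, cut m x = max (-Real.log x) 0 := by
  obtain ⟨M, hM⟩ := exists_nat_gt (2 / x)
  filter_upwards [eventually_ge_atTop M] with m hm
  have h1 : (M : ℝ) ≤ m := by exact_mod_cast hm
  have h2 : 2 < (m + 1) * x := by
    rw [div_lt_iff₀ hx] at hM
    nlinarith
  have h3 : 1 / ((m : ℝ) + 1) ≤ x := by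
    rw [div_le_iff₀ (by positivity)]
    linarith
  unfold cut
  rw [max_eq_left h3, min_eq_left (le_max_of_le_right (by linarith)), one_mul]

theorem Fam.integrableOn_log {τ : ℕ → ℝ} {R : ℝ} {w : ℕ → ℝ} {s : ℕ → Multiset ℝ}
    (h : Fam τ R w s) (hlog : ∀ n, 0 ≤ ((s n).map Real.log).sum)
    (μ : Measure ℝ) [IsFiniteMeasure μ] {S : ℝ} (hμ : μ (Set.Icc (-S) S)ᶜ = 0)
    (hm : ∀ k : ℕ, ∫ x, x ^ k ∂μ = τ k) : IntegrableOn Real.log (Set.Ioi 0) μ := by
  have hcont : Continuous fun x : ℝ => Real.log (max x 1) := by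
    apply Continuous.log (by fun_prop)
    intro x
    exact (lt_of_lt_of_le one_pos (le_max_right _ _)).ne'
  have hsplit : ∀ x : ℝ, 0 ≤ x → max (-Real.log x) 0 = Real.log (max x 1) - Real.log x := by
    intro x hx
    rcases le_total x 1 with h1 | h1
    · rw [max_eq_right h1, Real.log_one, max_eq_left (by linarith [Real.log_nonpos hx h1])]
      ring
    · rw [max_eq_left h1, max_eq_right (by linarith [Real.log_nonneg h1])]
      ring
  set C : ℝ := ∫ x, Real.log (max x 1) ∂μ with hC
  have hbound : ∀ m, ∫ x, cut m x ∂μ ≤ C := by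
    intro m
    refine le_of_tendsto_of_tendsto' (h.tendsto μ hμ hm _ (cut_cont m))
      (h.tendsto μ hμ hm _ hcont) fun n => ?_
    apply mul_le_mul_of_nonneg_left _ (h.w_nonneg n)
    have h1 : ((s n).map (cut m)).sum ≤
        ((s n).map fun x => Real.log (max x 1) - Real.log x).sum := by
      apply Multiset.sum_map_le_sum_map
      intro x hx
      rw [← hsplit x (h.mem n x hx).1]
      exact cut_le m x
    rw [Multiset.sum_map_sub] at h1
    linarith [hlog n]
  have hF : IntegrableOn (fun x => max (-Real.log x) 0) (Set.Ioi 0) μ := by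
    refine ⟨(by fun_prop : Measurable fun x => max (-Real.log x) 0).aestronglyMeasurable, ?_⟩
    rw [hasFiniteIntegral_iff_ofReal (f := fun x => max (-Real.log x) 0)
      (Eventually.of_forall fun x => le_max_right _ _)]
    have e : ∫⁻ x in Set.Ioi 0, ENNReal.ofReal (max (-Real.log x) 0) ∂μ =
        ∫⁻ x in Set.Ioi 0, liminf (fun m => ENNReal.ofReal (cut m x)) atTop ∂μ := by
      apply setLIntegral_congr_fun measurableSet_Ioi
      intro x hx
      symm
      apply Tendsto.liminf_eq
      apply tendsto_const_nhds.congr'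
      filter_upwards [cut_eventually hx] with m hm
      rw [hm]
    rw [e]
    refine lt_of_le_of_lt (lintegral_liminf_le fun m =>
      (cut_cont m).measurable.ennreal_ofReal) ?_
    refine lt_of_le_of_lt (liminf_le_of_frequently_le' (x := ENNReal.ofReal C) ?_)
      ENNReal.ofReal_lt_top
    apply Frequently.of_forall
    intro m
    refine (setLIntegral_le_lintegral _ _).trans ?_
    rw [← ofReal_integral_eq_lintegral_ofReal (integrable_of_cpt hμ (cut_cont m))
      (Eventually.of_forall (cut_nonneg m))]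
    exact ENNReal.ofReal_le_ofReal (hbound m)
  have hG : IntegrableOn (fun x => Real.log (max x 1)) (Set.Ioi 0) μ :=
    (integrable_of_cpt hμ hcont).integrableOn
  refine (hG.sub hF).congr_fun ?_ measurableSet_Ioi
  intro x hx
  simp only [Pi.sub_apply]
  rw [hsplit x (le_of_lt hx)]
  ring

theorem logeps_cont {ε : ℝ} (hε : 0 < ε) : Continuous fun x : ℝ => Real.log (|x| + ε) := by
  apply Continuous.log (by fun_prop)
  intro x
  positivity

/-- A uniform lower bound for the regularised logarithmic integrals passes to the limit. -/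
theorem le_setIntegral_log (μ : Measure ℝ) [IsFiniteMeasure μ] {R : ℝ}
    (hμ : μ (Set.Icc 0 R)ᶜ = 0) (hint : IntegrableOn Real.log (Set.Ioi 0) μ) (c : ℝ)
    (hc : ∀ ε : ℝ, 0 < ε → ε ≤ 1 → c ≤ ∫ x, Real.log (|x| + ε) ∂μ) :
    c ≤ ∫ x in Set.Ioi 0, Real.log x ∂μ := by
  have hμ' : μ (Set.Icc (-|R|) |R|)ᶜ = 0 :=
    measure_mono_null (Set.compl_subset_compl.2
      (Set.Icc_subset_Icc (by simp) (le_abs_self R))) hμ
  have hpos : ∀ n : ℕ, (0 : ℝ) < 1 / (n + 1) := fun n => by positivity
  have hle : ∀ n : ℕ, (1 : ℝ) / (n + 1) ≤ 1 := fun n => by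
    rw [div_le_one (by positivity)]
    have := Nat.cast_nonneg (α := ℝ) n
    linarith
  have hlim : Tendsto (fun n : ℕ => ∫ x in Set.Ioi 0, Real.log (|x| + 1 / (n + 1)) ∂μ) atTop
      (𝓝 (∫ x in Set.Ioi 0, Real.log x ∂μ)) := by
    apply tendsto_integral_of_dominated_convergence
      (fun x => ‖Real.log x‖ + Real.log (|x| + 1))
    · intro n
      exact (logeps_cont (hpos n)).aestronglyMeasurable
    · exact hint.norm.add (integrable_of_cpt hμ' (logeps_cont one_pos)).integrableOn
    · intro n
      filter_upwards [ae_restrict_mem measurableSet_Ioi] with x hx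
      have hx' : 0 < x := hx
      rw [abs_of_pos hx', Real.norm_eq_abs, Real.norm_eq_abs, abs_le]
      have h1 : Real.log x ≤ Real.log (x + 1 / (n + 1)) :=
        Real.log_le_log hx' (by linarith [hpos n])
      have h2 : Real.log (x + 1 / (n + 1)) ≤ Real.log (x + 1) :=
        Real.log_le_log (by linarith [hpos n]) (by linarith [hle n])
      have h3 : 0 ≤ Real.log (x + 1) := Real.log_nonneg (by linarith)
      constructor
      · linarith [neg_abs_le (Real.log x)]
      · linarith [abs_nonneg (Real.log x)]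
    · filter_upwards [ae_restrict_mem measurableSet_Ioi] with x hx
      have hx' : 0 < x := hx
      rw [abs_of_pos hx']
      apply (Real.continuousAt_log hx'.ne').tendsto.comp
      simpa using tendsto_one_div_add_atTop_nhds_zero_nat.const_add x
  refine ge_of_tendsto' hlim fun n => ?_
  refine (hc _ (hpos n) (hle n)).trans ?_
  rw [← integral_add_compl measurableSet_Ioi (integrable_of_cpt hμ' (logeps_cont (hpos n)))]
  have : ∫ x in (Set.Ioi 0)ᶜ, Real.log (|x| + 1 / (n + 1)) ∂μ ≤ 0 := by
    apply integral_nonpos_of_ae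
    have h0 : ∀ᵐ x ∂μ, x ∈ Set.Icc 0 R := mem_ae_iff.2 hμ
    filter_upwards [ae_restrict_mem measurableSet_Ioi.compl, ae_restrict_of_ae h0] with x hx hx0
    have : x = 0 := le_antisymm (by simpa using hx) hx0.1
    subst this
    simpa using Real.log_nonpos (hpos n).le (hle n)
  linarith

end Pool.Agent.Lib.MP_75c153_gt
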