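import Pool.Agent.Lib.MP_75c153_gt.Defs
import Pool.Agent.Lib.MP_75c153_gt.DetClass

/-! Matrices over group rings, representations and their eigenvalues. -/

namespace Pool.Agent.Lib.MP_75c153_gt

open MeasureTheory Filter Topology Polynomial Matrix
open scoped ComplexOrder

section Eig

variable {𝕜 : Type} [RCLike 𝕜] {n : Type} [Fintype n] [DecidableEq n] {M : Matrix n n 𝕜}

/-- The multiset of eigenvalues of a Hermitian matrix. -/
noncomputable def eigs (hM : M.IsHermitian) : Multiset ℝ := Finset.univ.val.map hM.eigenvalues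

theorem eigs_sum (hM : M.IsHermitian) (f : ℝ → ℝ) :
    ((eigs hM).map f).sum = ∑ i, f (hM.eigenvalues i) := by
  rw [eigs, Multiset.map_map]
  rfl

theorem trace_pow_eq (hM : M.IsHermitian) (k : ℕ) :
    (M ^ k).trace = ((((eigs hM).map fun x => x ^ k).sum : ℝ) : 𝕜) := by
  rw [eigs_sum]
  conv_lhs => rw [hM.spectral_theorem, ← map_pow, Unitary.conjStarAlgAut_apply,
    Matrix.trace_mul_comm, ← mul_assoc]
  simp [Matrix.diagonal_pow]

theorem eigs_abs_le (hM : M.IsHermitian) {R : ℝ} (hR : ∀ i, ∑ j, ‖M i j‖ ≤ R) :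
    ∀ x ∈ eigs hM, |x| ≤ R := by
  intro x hx
  obtain ⟨i, -, rfl⟩ := Multiset.mem_map.1 hx
  have h1 : ((hM.eigenvalues i : ℝ) : 𝕜) ∈ spectrum 𝕜 M := by
    rw [hM.spectrum_eq_image_range]
    exact ⟨_, ⟨i, rfl⟩, rfl⟩
  have h2 : Module.End.HasEigenvalue (Matrix.toLin' M) ((hM.eigenvalues i : ℝ) : 𝕜) := by
    rw [Module.End.hasEigenvalue_iff_mem_spectrum, Matrix.spectrum_toLin']
    exact h1
  obtain ⟨k, hk⟩ := eigenvalue_mem_ball h2
  rw [mem_closedBall_iff_norm] at hk
  have h3 := hR k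
  rw [← Finset.add_sum_erase _ _ (Finset.mem_univ k)] at h3
  have h4 := norm_le_norm_add_norm_sub' ((hM.eigenvalues i : ℝ) : 𝕜) (M k k)
  rw [RCLike.norm_ofReal] at h4
  linarith

theorem eigs_nonneg (hM : M.PosSemidef) : ∀ x ∈ eigs hM.isHermitian, 0 ≤ x := by
  intro x hx
  obtain ⟨i, -, rfl⟩ := Multiset.mem_map.1 hx
  exact hM.eigenvalues_nonneg i

theorem sum_log_eigs_of_det (hM : M.PosSemidef) (hd : M.det ≠ 0) :
    ((eigs hM.isHermitian).map Real.log).sum = Real.log ‖M.det‖ ∧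
      ∀ x ∈ eigs hM.isHermitian, 0 < x := by
  rw [hM.isHermitian.det_eq_prod_eigenvalues] at hd ⊢
  have hne : ∀ i, hM.isHermitian.eigenvalues i ≠ 0 := by
    intro i hi
    exact hd (Finset.prod_eq_zero (Finset.mem_univ i) (by simp [hi]))
  constructor
  · rw [eigs_sum, ← Real.log_prod fun i _ => hne i, norm_prod]
    congr 1
    refine Finset.prod_congr rfl fun i _ => ?_
    rw [RCLike.norm_ofReal, abs_of_nonneg (hM.eigenvalues_nonneg i)]
  · intro x hx
    obtain ⟨i, -, rfl⟩ := Multiset.mem_map.1 hx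
    exact lt_of_le_of_ne (hM.eigenvalues_nonneg i) (hne i).symm

theorem logDetPos_eq {M : Matrix n n ℝ} (hM : M.IsHermitian) :
    logDetPos M = ((eigs hM).map Real.log).sum := by
  have h1 : M.charpoly.roots = eigs hM := by
    rw [hM.roots_charpoly_eq_eigenvalues]
    rfl
  rw [logDetPos, h1]
  conv_rhs => rw [← Multiset.filter_add_not (· ≠ 0) (eigs hM), Multiset.map_add, Multiset.sum_add]
  rw [left_eq_add]
  apply Multiset.sum_eq_zero
  intro y hy
  obtain ⟨x, hx, rfl⟩ := Multiset.mem_map.1 hy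
  have := (Multiset.mem_filter.1 hx).2
  simp only [ne_eq, not_not] at this
  simp [this]

theorem trailingCoeff_X_sub_C (a : ℝ) :
    (X - C a : ℝ[X]).trailingCoeff = if a = 0 then 1 else -a := by
  split_ifs with h
  · subst h
    simp [trailingCoeff, natTrailingDegree_X]
  · have : (X - C a : ℝ[X]).coeff 0 ≠ 0 := by simpa using h
    rw [trailingCoeff, natTrailingDegree_eq_zero.2 (Or.inr this)]
    simp

/-- Integrality: the nonzero eigenvalues of an integral positive matrix have product at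
least one. -/
theorem sum_log_eigs_nonneg {M : Matrix n n ℝ} (hM : M.PosSemidef)
    (hint : ∀ i j, ∃ z : ℤ, M i j = z) : 0 ≤ ((eigs hM.isHermitian).map Real.log).sum := by
  choose Z hZ using hint
  have hMZ : M = (Matrix.of Z).map (Int.castRingHom ℝ) := by
    ext i j
    simp [hZ]
  have hprod : ∀ s : Finset n, Real.log |(∏ i ∈ s, (X - C (hM.isHermitian.eigenvalues i)) :
      ℝ[X]).trailingCoeff| = ∑ i ∈ s, Real.log (hM.isHermitian.eigenvalues i) ∧
      (∏ i ∈ s, (X - C (hM.isHermitian.eigenvalues i)) : ℝ[X]).trailingCoeff ≠ 0 := by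
    intro s
    induction s using Finset.induction_on with
    | empty => simp [trailingCoeff]
    | insert a s ha ih =>
      rw [Finset.prod_insert ha, Finset.sum_insert ha, trailingCoeff_mul, trailingCoeff_X_sub_C,
        ← ih.1]
      split_ifs with h
      · simp [h, ih.2]
      · refine ⟨?_, mul_ne_zero (neg_ne_zero.2 h) ih.2⟩
        rw [abs_mul, Real.log_mul (by simpa using h) (by simpa using ih.2)]
        simp
  have hc : M.charpoly = ∏ i, (X - C (hM.isHermitian.eigenvalues i)) := by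
    simpa using hM.isHermitian.charpoly_eq
  obtain ⟨h1, h2⟩ := hprod Finset.univ
  rw [eigs_sum, ← h1]
  rw [← hc] at h2 ⊢
  have h3 : ∃ z : ℤ, M.charpoly.trailingCoeff = z := by
    rw [trailingCoeff]
    generalize M.charpoly.natTrailingDegree = d
    rw [hMZ, Matrix.charpoly_map, coeff_map]
    exact ⟨_, rfl⟩
  obtain ⟨z, hz⟩ := h3
  rw [hz] at h2 ⊢
  apply Real.log_nonneg
  have : z ≠ 0 := by exact_mod_cast h2
  exact_mod_cast Int.one_le_abs this

end Eig

section GroupRing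

variable {G : Type} [Group G]

@[simp] theorem bar_single (g : G) (c : ℤ) :
    bar (MonoidAlgebra.single g c) = MonoidAlgebra.single g⁻¹ c := by
  simp [bar]

@[simp] theorem bar_zero : bar (0 : MonoidAlgebra ℤ G) = 0 := by simp [bar]

theorem bar_add (a b : MonoidAlgebra ℤ G) : bar (a + b) = bar a + bar b := by
  simp [bar, MonoidAlgebra.mapDomain_add]

/-- The involution as an additive homomorphism. -/
noncomputable def barHom : MonoidAlgebra ℤ G →+ MonoidAlgebra ℤ G where
  toFun := bar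
  map_zero' := bar_zero
  map_add' := bar_add

theorem bar_sum {ι : Type} (s : Finset ι) (f : ι → MonoidAlgebra ℤ G) :
    bar (∑ i ∈ s, f i) = ∑ i ∈ s, bar (f i) := map_sum barHom f s

theorem bar_one : bar (1 : MonoidAlgebra ℤ G) = 1 := by
  simp [MonoidAlgebra.one_def]

theorem bar_mul (a b : MonoidAlgebra ℤ G) : bar (a * b) = bar b * bar a := by
  induction a using MonoidAlgebra.induction_linear with
  | zero => simp
  | add x y hx hy => rw [add_mul, bar_add, bar_add, hx, hy, mul_add]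
  | single g c =>
    induction b using MonoidAlgebra.induction_linear with
    | zero => simp
    | add x y hx hy => rw [mul_add, bar_add, bar_add, hx, hy, add_mul]
    | single h d => simp [MonoidAlgebra.single_mul_single, mul_comm]

theorem adj_mul {ι κ ν : Type} [Fintype κ] (A : Matrix ι κ (MonoidAlgebra ℤ G))
    (B : Matrix κ ν (MonoidAlgebra ℤ G)) : adj (A * B) = adj B * adj A := by
  ext1 i j
  simp [adj, Matrix.mul_apply, bar_sum, bar_mul]

theorem adj_zero {ι κ : Type} : adj (0 : Matrix ι κ (MonoidAlgebra ℤ G)) = 0 := by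
  ext1 i j
  simp [adj]

theorem coeff_one_comm (a b : MonoidAlgebra ℤ G) : (a * b).coeff 1 = (b * a).coeff 1 := by
  classical
  induction a using MonoidAlgebra.induction_linear with
  | zero => simp
  | add x y hx hy => simp [add_mul, mul_add, hx, hy]
  | single g c =>
    induction b using MonoidAlgebra.induction_linear with
    | zero => simp
    | add x y hx hy => simp [add_mul, mul_add, hx, hy]
    | single h d =>
      simp only [MonoidAlgebra.single_mul_single, MonoidAlgebra.coeff_single, Finsupp.single_apply,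
        mul_comm c d, mul_eq_one_comm (a := g)]

/-- The sum of the absolute values of the coefficients. -/
noncomputable def l1 (a : MonoidAlgebra ℤ G) : ℝ := a.coeff.sum fun _ c => |(c : ℝ)|

omit [Group G] in
theorem l1_nonneg (a : MonoidAlgebra ℤ G) : 0 ≤ l1 a :=
  Finset.sum_nonneg fun _ _ => abs_nonneg _

variable {𝕜 : Type} [RCLike 𝕜] {m : Type} [Fintype m] [DecidableEq m]

/-- The algebra map induced by a matrix representation. -/
noncomputable def rep (ρ : G →* Matrix m m 𝕜) : MonoidAlgebra ℤ G →ₐ[ℤ] Matrix m m 𝕜 :=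
  MonoidAlgebra.lift ℤ (Matrix m m 𝕜) G ρ

theorem rep_single (ρ : G →* Matrix m m 𝕜) (g : G) (c : ℤ) :
    rep ρ (MonoidAlgebra.single g c) = c • ρ g := by
  simp [rep]

theorem rep_apply (ρ : G →* Matrix m m 𝕜) (a : MonoidAlgebra ℤ G) :
    rep ρ a = ∑ g ∈ a.coeff.support, a.coeff g • ρ g := by
  rw [rep, MonoidAlgebra.lift_apply]
  rfl

theorem rep_bar (ρ : G →* Matrix m m 𝕜) (hρ : ∀ g, ρ g⁻¹ = (ρ g)ᴴ) (a : MonoidAlgebra ℤ G) :
    rep ρ (bar a) = (rep ρ a)ᴴ := by
  induction a using MonoidAlgebra.induction_linear with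
  | zero => simp
  | add x y hx hy => rw [bar_add, map_add, map_add, hx, hy, conjTranspose_add]
  | single g c => rw [bar_single, rep_single, rep_single, hρ, conjTranspose_smul, star_trivial]

theorem rep_rows (ρ : G →* Matrix m m 𝕜) (hρ : ∀ g i, ∑ j, ‖ρ g i j‖ ≤ 1)
    (a : MonoidAlgebra ℤ G) (i : m) : ∑ j, ‖rep ρ a i j‖ ≤ l1 a := by
  rw [rep_apply, l1, Finsupp.sum]
  calc ∑ j, ‖(∑ g ∈ a.coeff.support, a.coeff g • ρ g) i j‖
      ≤ ∑ j, ∑ g ∈ a.coeff.support, |(a.coeff g : ℝ)| * ‖ρ g i j‖ := by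
        refine Finset.sum_le_sum fun j _ => ?_
        rw [Matrix.sum_apply]
        refine (norm_sum_le _ _).trans (le_of_eq (Finset.sum_congr rfl fun g _ => ?_))
        rw [Matrix.smul_apply, zsmul_eq_mul, norm_mul, ← RCLike.ofReal_intCast, RCLike.norm_ofReal]
    _ = ∑ g ∈ a.coeff.support, |(a.coeff g : ℝ)| * ∑ j, ‖ρ g i j‖ := by
        rw [Finset.sum_comm]
        simp_rw [Finset.mul_sum]
    _ ≤ _ := Finset.sum_le_sum fun g _ => mul_le_of_le_one_right (abs_nonneg _) (hρ g i)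

theorem trace_rep (ρ : G →* Matrix m m 𝕜) (a : MonoidAlgebra ℤ G) :
    (rep ρ a).trace = ∑ g ∈ a.coeff.support, (a.coeff g : 𝕜) * (ρ g).trace := by
  rw [rep_apply, trace_sum]
  refine Finset.sum_congr rfl fun g _ => ?_
  rw [trace_smul, zsmul_eq_mul]

/-- Block matrix obtained by applying a representation to every entry. -/
noncomputable def blk (ρ : G →* Matrix m m 𝕜) {ι κ : Type} (A : Matrix ι κ (MonoidAlgebra ℤ G)) :
    Matrix (m × ι) (m × κ) 𝕜 :=
  Matrix.of fun p q => rep ρ (A p.2 q.2) p.1 q.1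

theorem blk_mul (ρ : G →* Matrix m m 𝕜) {ι κ ν : Type} [Fintype κ]
    (A : Matrix ι κ (MonoidAlgebra ℤ G)) (B : Matrix κ ν (MonoidAlgebra ℤ G)) :
    blk ρ (A * B) = blk ρ A * blk ρ B := by
  ext p q
  simp only [blk, Matrix.mul_apply, of_apply, map_sum, map_mul, Matrix.sum_apply,
    Fintype.sum_prod_type]
  rw [Finset.sum_comm]

theorem blk_add (ρ : G →* Matrix m m 𝕜) {ι κ : Type} (A B : Matrix ι κ (MonoidAlgebra ℤ G)) :
    blk ρ (A + B) = blk ρ A + blk ρ B := by
  ext p q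
  simp [blk]

theorem blk_one (ρ : G →* Matrix m m 𝕜) {ι : Type} [DecidableEq ι] :
    blk ρ (1 : Matrix ι ι (MonoidAlgebra ℤ G)) = 1 := by
  ext ⟨u, i⟩ ⟨v, j⟩
  by_cases h : i = j
  · subst h
    simp [blk, Matrix.one_apply]
  · simp [blk, Matrix.one_apply, h]

theorem blk_pow (ρ : G →* Matrix m m 𝕜) {ι : Type} [Fintype ι] [DecidableEq ι]
    (A : Matrix ι ι (MonoidAlgebra ℤ G)) (k : ℕ) : blk ρ (A ^ k) = blk ρ A ^ k := by
  induction k with
  | zero => simp [blk_one]
  | succ k ih => rw [pow_succ, blk_mul, ih, pow_succ]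

theorem blk_adj (ρ : G →* Matrix m m 𝕜) (hρ : ∀ g, ρ g⁻¹ = (ρ g)ᴴ) {ι κ : Type}
    (A : Matrix ι κ (MonoidAlgebra ℤ G)) : blk ρ (adj A) = (blk ρ A)ᴴ := by
  ext p q
  simp [blk, adj, rep_bar ρ hρ]

theorem trace_blk (ρ : G →* Matrix m m 𝕜) {ι : Type} [Fintype ι]
    (A : Matrix ι ι (MonoidAlgebra ℤ G)) : (blk ρ A).trace = ∑ i, (rep ρ (A i i)).trace := by
  simp only [trace, diag, blk, of_apply, Fintype.sum_prod_type]
  rw [Finset.sum_comm]

theorem blk_rows (ρ : G →* Matrix m m 𝕜) (hρ : ∀ g i, ∑ j, ‖ρ g i j‖ ≤ 1) {ι : Type} [Fintype ι]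
    (A : Matrix ι ι (MonoidAlgebra ℤ G)) (p : m × ι) :
    ∑ q, ‖blk ρ A p q‖ ≤ ∑ i, ∑ j, l1 (A i j) := by
  calc ∑ q, ‖blk ρ A p q‖ = ∑ j, ∑ v, ‖rep ρ (A p.2 j) p.1 v‖ := by
        simp only [blk, of_apply, Fintype.sum_prod_type]
        rw [Finset.sum_comm]
    _ ≤ ∑ j, l1 (A p.2 j) := Finset.sum_le_sum fun j _ => rep_rows ρ hρ _ _
    _ ≤ _ := Finset.single_le_sum (f := fun i => ∑ j, l1 (A i j))
        (fun i _ => Finset.sum_nonneg fun j _ => l1_nonneg _) (Finset.mem_univ p.2)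

end GroupRing

end Pool.Agent.Lib.MP_75c153_gt
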