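import Mathlib

/-!
Definitions for the combinatorial (cellular) form of the approximation problem for torsion.

Conventions: chain modules are free left modules over the group ring, elements are row vectors and
the boundary maps are right multiplications by matrices.
-/

namespace Pool.Agent.Lib.MP_75c153_gt

open MeasureTheory

variable {G : Type} [Group G]

/-- The involution of the integral group ring sending each group element to its inverse. -/
noncomputable def bar (a : MonoidAlgebra ℤ G) : MonoidAlgebra ℤ G :=
  MonoidAlgebra.mapDomain (fun g => g⁻¹) a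

/-- The adjoint (conjugate transpose) of a matrix over the group ring. -/
noncomputable def adj {ι κ : Type} (A : Matrix ι κ (MonoidAlgebra ℤ G)) :
    Matrix κ ι (MonoidAlgebra ℤ G) :=
  Matrix.of fun j i => bar (A i j)

/-- The von Neumann trace of a square matrix over the group ring: the sum of the coefficients of
the identity element in the diagonal entries. -/
noncomputable def vnTrace {ι : Type} [Fintype ι] (A : Matrix ι ι (MonoidAlgebra ℤ G)) : ℤ :=
  ∑ i, (A i i).coeff 1

/-- `μ` is the spectral measure, with respect to the von Neumann trace, of the self-adjoint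
operator on `ℓ²(G)^ι` given by `A`: a finite compactly supported measure on the real line whose
`k`-th moment is the von Neumann trace of `A ^ k` for every `k`. -/
def IsSpecMeasure {ι : Type} [Fintype ι] [DecidableEq ι] (A : Matrix ι ι (MonoidAlgebra ℤ G))
    (μ : Measure ℝ) : Prop :=
  IsFiniteMeasure μ ∧ (∃ R : ℝ, μ (Set.Icc (-R) R)ᶜ = 0) ∧
    ∀ k : ℕ, ∫ x, x ^ k ∂μ = (vnTrace (A ^ k) : ℝ)

/-- The logarithm of the Fuglede-Kadison determinant (on the complement of the kernel) of a
positive operator with spectral measure `μ`. -/
noncomputable def logDetFK (μ : Measure ℝ) : ℝ :=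
  ∫ x in Set.Ioi (0 : ℝ), Real.log x ∂μ

open Classical in
/-- The real matrix of the map induced by `A` on the chains of the finite cover belonging to the
normal subgroup `N`: the basis element `(u, i)` goes to the sum over `j` and `g` of
`(A i j) g` times `(u * g, j)`. -/
noncomputable def cover (N : Subgroup G) [N.Normal] {ι κ : Type}
    (A : Matrix ι κ (MonoidAlgebra ℤ G)) : Matrix ((G ⧸ N) × ι) ((G ⧸ N) × κ) ℝ :=
  Matrix.of fun p q =>
    (A p.2 q.2).coeff.sum fun g c => if p.1 * (g : G ⧸ N) = q.1 then (c : ℝ) else 0

/-- The logarithm of the product of the nonzero eigenvalues (with multiplicity) of a real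
symmetric matrix. -/
noncomputable def logDetPos {n : Type} [Fintype n] [DecidableEq n] (M : Matrix n n ℝ) : ℝ :=
  ((M.charpoly.roots.filter (· ≠ 0)).map Real.log).sum

/-- Fox derivative with respect to the letter `i` of a word in letters `(j, true) = x_j` and
`(j, false) = x_j⁻¹`, evaluated in the group ring along `e`. -/
noncomputable def fox {α : Type} [DecidableEq α] (e : α → G) (i : α) :
    List (α × Bool) → MonoidAlgebra ℤ G
  | [] => 0
  | (j, true) :: w => (if j = i then 1 else 0) + MonoidAlgebra.single (e j) 1 * fox e i w
  | (j, false) :: w =>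
      (if j = i then -MonoidAlgebra.single (e j)⁻¹ 1 else 0) +
        MonoidAlgebra.single (e j)⁻¹ 1 * fox e i w

/-- The fundamental group of a CW complex with one 0-cell, `g` 1-cells and `r` 2-cells attached
along the words `rel`. -/
abbrev Pi1 {g r : ℕ} (rel : Fin r → List (Fin g × Bool)) : Type :=
  PresentedGroup (Set.range fun j => FreeGroup.mk (rel j))

/-- First cellular boundary map of the universal cover. -/
noncomputable def bd₁ {g r : ℕ} (rel : Fin r → List (Fin g × Bool)) :
    Matrix (Fin g) (Fin 1) (MonoidAlgebra ℤ (Pi1 rel)) :=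
  Matrix.of fun i _ => MonoidAlgebra.single (PresentedGroup.of i) 1 - 1

/-- Second cellular boundary map of the universal cover (the Fox Jacobian). -/
noncomputable def bd₂ {g r : ℕ} (rel : Fin r → List (Fin g × Bool)) :
    Matrix (Fin r) (Fin g) (MonoidAlgebra ℤ (Pi1 rel)) :=
  Matrix.of fun j i => fox PresentedGroup.of i (rel j)

/-- The combinatorial Laplacian in degree `p` built from the boundary maps `c = c_p` and
`d = c_(p+1)` over the group ring. -/
noncomputable def lap {ι κ ν : Type} [Fintype κ] [Fintype ν]
    (c : Matrix ι κ (MonoidAlgebra ℤ G)) (d : Matrix ν ι (MonoidAlgebra ℤ G)) :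
    Matrix ι ι (MonoidAlgebra ℤ G) :=
  c * adj c + adj d * d

/-- The torsion formula `-(1/2) ∑ (-1)^p p log det Δ_p` for a complex of dimension three. -/
noncomputable def torsionOf (l₁ l₂ l₃ : ℝ) : ℝ :=
  -(1 / 2) * (-l₁ + 2 * l₂ - 3 * l₃)

open Classical in
/-- The combinatorial torsion of the finite cover belonging to `N` of a three-dimensional complex
whose universal cover has the cellular boundary maps `c₁`, `c₂`, `c₃`. -/
noncomputable def coverTorsion {n₀ n₁ n₂ n₃ : ℕ} (c₁ : Matrix (Fin n₁) (Fin n₀) (MonoidAlgebra ℤ G))
    (c₂ : Matrix (Fin n₂) (Fin n₁) (MonoidAlgebra ℤ G))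
    (c₃ : Matrix (Fin n₃) (Fin n₂) (MonoidAlgebra ℤ G))
    (N : Subgroup G) [N.Normal] [N.FiniteIndex] : ℝ :=
  letI : Fintype (G ⧸ N) := Fintype.ofFinite _
  torsionOf
    (logDetPos (cover N c₁ * (cover N c₁).transpose + (cover N c₂).transpose * cover N c₂))
    (logDetPos (cover N c₂ * (cover N c₂).transpose + (cover N c₃).transpose * cover N c₃))
    (logDetPos (cover N c₃ * (cover N c₃).transpose))

/-- Attaching words of the 2-cells for the wedge of the Heisenberg nilmanifold with a 2-sphere:
the generators `0, 1, 2` are `x, y, z` and the words are `x y x⁻¹ y⁻¹ z⁻¹`, `x z x⁻¹ z⁻¹`,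
`y z y⁻¹ z⁻¹` and the empty word. -/
def heisRel : Fin 4 → List (Fin 3 × Bool) :=
  ![[(0, true), (1, true), (0, false), (1, false), (2, false)],
    [(0, true), (2, true), (0, false), (2, false)],
    [(1, true), (2, true), (1, false), (2, false)],
    []]

/-- The one by one matrix whose entry is `(y - 2)(y - 3) - (6 - y) x` in the integral group ring
of the Heisenberg group. -/
noncomputable def heisElt : Matrix (Fin 1) (Fin 1) (MonoidAlgebra ℤ (Pi1 heisRel)) :=
  Matrix.of fun _ _ =>
    (MonoidAlgebra.single (PresentedGroup.of 1) 1 - 2) *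
        (MonoidAlgebra.single (PresentedGroup.of 1) 1 - 3) -
      (6 - MonoidAlgebra.single (PresentedGroup.of 1) 1) *
        MonoidAlgebra.single (PresentedGroup.of 0) 1

open Classical in
/-- The logarithm of the product of the nonzero eigenvalues of `B Bᵀ`, where `B` is the real
matrix induced by `A` on the finite quotient by `N`. -/
noncomputable def coverLogDet {n m : ℕ} (A : Matrix (Fin n) (Fin m) (MonoidAlgebra ℤ G))
    (N : Subgroup G) [N.Normal] [N.FiniteIndex] : ℝ :=
  letI : Fintype (G ⧸ N) := Fintype.ofFinite _
  logDetPos (cover N A * (cover N A).transpose)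

end Pool.Agent.Lib.MP_75c153_gt
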