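import Pool.Agent.Lib.MP_75c153_gt.Chain

/-! The Heisenberg group, its congruence subgroups and monomial representations. -/

namespace Pool.Agent.Lib.MP_75c153_gt

open Filter Topology Polynomial Matrix
open scoped ComplexOrder

/-- Upper unitriangular three by three matrices. -/
@[ext] structure Heis (R : Type) where
  /-- first superdiagonal entry -/
  a : R
  /-- second superdiagonal entry -/
  b : R
  /-- corner entry -/
  c : R

namespace Heis

variable {R : Type} [CommRing R]

instance : Mul (Heis R) := ⟨fun g h => ⟨g.a + h.a, g.b + h.b, g.c + h.c + g.a * h.b⟩⟩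
instance : One (Heis R) := ⟨⟨0, 0, 0⟩⟩
instance : Inv (Heis R) := ⟨fun g => ⟨-g.a, -g.b, -g.c + g.a * g.b⟩⟩

@[simp] theorem mul_a (g h : Heis R) : (g * h).a = g.a + h.a := rfl
@[simp] theorem mul_b (g h : Heis R) : (g * h).b = g.b + h.b := rfl
@[simp] theorem mul_c (g h : Heis R) : (g * h).c = g.c + h.c + g.a * h.b := rfl
@[simp] theorem one_a : (1 : Heis R).a = 0 := rfl
@[simp] theorem one_b : (1 : Heis R).b = 0 := rfl
@[simp] theorem one_c : (1 : Heis R).c = 0 := rfl
@[simp] theorem inv_a (g : Heis R) : g⁻¹.a = -g.a := rfl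
@[simp] theorem inv_b (g : Heis R) : g⁻¹.b = -g.b := rfl
@[simp] theorem inv_c (g : Heis R) : g⁻¹.c = -g.c + g.a * g.b := rfl

instance : Group (Heis R) := Group.ofLeftAxioms
  (fun g h k => by ext <;> simp <;> ring)
  (fun g => by ext <;> simp)
  (fun g => by ext <;> simp)

/-- Heisenberg elements as triples. -/
def equivProd : Heis R ≃ R × R × R where
  toFun g := (g.a, g.b, g.c)
  invFun p := ⟨p.1, p.2.1, p.2.2⟩
  left_inv _ := rfl
  right_inv _ := rfl

/-- Reduction modulo `q`. -/
def red (q : ℕ) : Heis ℤ →* Heis (ZMod q) where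
  toFun g := ⟨g.a, g.b, g.c⟩
  map_one' := by ext <;> simp
  map_mul' g h := by ext <;> simp

theorem red_surj (q : ℕ) : Function.Surjective (red q) := by
  intro h
  obtain ⟨a, ha⟩ := ZMod.intCast_surjective h.a
  obtain ⟨b, hb⟩ := ZMod.intCast_surjective h.b
  obtain ⟨c, hc⟩ := ZMod.intCast_surjective h.c
  exact ⟨⟨a, b, c⟩, by ext <;> simp [red, ha, hb, hc]⟩

theorem red_eq_one (q : ℕ) (g : Heis ℤ) :
    red q g = 1 ↔ (g.a : ZMod q) = 0 ∧ (g.b : ZMod q) = 0 ∧ (g.c : ZMod q) = 0 := by
  simp [Heis.ext_iff, red]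

theorem card_zmod (q : ℕ) : Nat.card (Heis (ZMod q)) = q ^ 3 := by
  rw [Nat.card_congr equivProd]
  simp [Nat.card_prod, pow_succ, mul_assoc]

variable (q : ℕ) [NeZero q]

/-- The monomial representation attached to a character `(s, t)` of the abelian normal subgroup,
twisted by the sign `ξ`. -/
noncomputable def mono (ξ : ℂ) (hξ : ξ ≠ 0) (s t : ZMod q) :
    Heis ℤ →* Matrix (ZMod q) (ZMod q) ℂ where
  toFun g := Matrix.of fun i j =>
    if i + g.a = j then ξ ^ g.a * ZMod.stdAddChar (s * (g.b : ZMod q) + t * ((g.c : ZMod q) + i * (g.b : ZMod q))) else 0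
  map_one' := by
    ext i j
    simp [Matrix.one_apply]
  map_mul' g h := by
    ext i j
    simp only [Matrix.mul_apply, of_apply, ite_mul, zero_mul, Finset.sum_ite_eq, Finset.mem_univ,
      if_true, mul_a, mul_b, mul_c, Int.cast_add, Int.cast_mul, add_assoc]
    split_ifs
    · rw [zpow_add₀ hξ, mul_mul_mul_comm, ← AddChar.map_add_eq_mul]
      congr 2
      ring
    · simp

theorem norm_char (j : ZMod q) : ‖ZMod.stdAddChar j‖ = 1 := by
  rw [ZMod.stdAddChar_apply]
  exact Circle.norm_coe _

theorem conj_char (j : ZMod q) : star (ZMod.stdAddChar j) = ZMod.stdAddChar (-j) := by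
  rw [AddChar.map_neg_eq_inv, Complex.inv_eq_conj (norm_char q j)]
  rfl

theorem mono_inv (ξ : ℂ) (hξ : ξ ≠ 0) (h1 : ‖ξ‖ = 1) (s t : ZMod q) (g : Heis ℤ) :
    mono q ξ hξ s t g⁻¹ = (mono q ξ hξ s t g)ᴴ := by
  ext i j
  simp only [mono, MonoidHom.coe_mk, OneHom.coe_mk, of_apply, conjTranspose_apply, inv_a, inv_b,
    inv_c, Int.cast_neg, Int.cast_add, Int.cast_mul]
  by_cases h : j + g.a = i
  · subst h
    rw [if_pos (by ring), if_pos rfl, star_mul', conj_char, star_zpow₀, _root_.zpow_neg]
    congr 1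
    · rw [← _root_.inv_zpow, Complex.inv_eq_conj h1]
      rfl
    · congr 1
      ring
  · rw [if_neg h, if_neg (fun h' => h (by rw [← h']; ring)), star_zero]

theorem mono_rows (ξ : ℂ) (hξ : ξ ≠ 0) (h1 : ‖ξ‖ = 1) (s t : ZMod q) (g : Heis ℤ) (i : ZMod q) :
    ∑ j, ‖mono q ξ hξ s t g i j‖ ≤ 1 := by
  simp only [mono, MonoidHom.coe_mk, OneHom.coe_mk, of_apply, apply_ite norm, norm_zero,
    Finset.sum_ite_eq, Finset.mem_univ, if_true, norm_mul, norm_char, norm_zpow, h1, _root_.one_zpow,
    mul_one, le_refl]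

theorem sum_trace_mono (ξ : ℂ) (hξ : ξ ≠ 0) (g : Heis ℤ) [Decidable (red q g = 1)] :
    ∑ p : ZMod q × ZMod q, (mono q ξ hξ p.1 p.2 g).trace =
      (q : ℂ) ^ 3 * if red q g = 1 then ξ ^ g.a else 0 := by
  have hψ := ZMod.isPrimitive_stdAddChar q
  simp only [mono, MonoidHom.coe_mk, OneHom.coe_mk, trace, diag, of_apply, add_eq_left,
    Fintype.sum_prod_type, red_eq_one]
  by_cases ha : (g.a : ZMod q) = 0
  · simp only [ha, if_true, true_and, AddChar.map_add_eq_mul, ← Finset.mul_sum]
    rw [← Finset.sum_mul, AddChar.sum_mulShift _ hψ]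
    by_cases hb : (g.b : ZMod q) = 0
    · simp only [hb, mul_zero, add_zero, if_true, true_and, Finset.sum_const, Finset.card_univ,
        ZMod.card, nsmul_eq_mul, ← Finset.mul_sum]
      rw [AddChar.sum_mulShift _ hψ]
      split_ifs <;> simp
      ring
    · simp [hb]
  · simp [ha]

/-- Product of `c - ζ` over all `q`-th roots of unity. -/
theorem prod_sub_char (c : ℂ) : ∏ j : ZMod q, (c - ZMod.stdAddChar j) = c ^ q - 1 := by
  have hq : 0 < q := Nat.pos_of_ne_zero (NeZero.ne q)
  have hζ : IsPrimitiveRoot (ZMod.stdAddChar (1 : ZMod q)) q := by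
    have := Complex.isPrimitiveRoot_exp q hq.ne'
    have e := ZMod.stdAddChar_coe (N := q) 1
    simp only [Int.cast_one, mul_one] at e
    rw [e]
    exact this
  have h := congrArg (Polynomial.eval c) (X_pow_sub_C_eq_prod (α := 1) (a := 1) hζ hq (one_pow _))
  simp only [eval_sub, eval_pow, eval_X, eval_C, eval_prod, mul_one] at h
  rw [h]
  symm
  refine Finset.prod_bij (fun i _ => (i : ZMod q)) (fun _ _ => Finset.mem_univ _) ?_ ?_ ?_
  · intro i hi j hj hij
    have := (ZMod.natCast_eq_natCast_iff' i j q).1 hij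
    rwa [Nat.mod_eq_of_lt (Finset.mem_range.1 hi), Nat.mod_eq_of_lt (Finset.mem_range.1 hj)] at this
  · intro j _
    exact ⟨j.val, Finset.mem_range.2 (ZMod.val_lt j), by simp⟩
  · intro i _
    rw [← AddChar.map_nsmul_eq_pow]
    simp

/-- Determinant of a cyclic bidiagonal matrix of odd size. -/
theorem det_cyclic (hodd : Odd q) (h1 : q ≠ 1) (α β : ZMod q → ℂ) :
    (Matrix.of fun i j => (if i = j then α i else 0) + (if i + 1 = j then β i else 0)).det =
      ∏ i, α i + ∏ i, β i := by
  have h10 : (1 : ZMod q) ≠ 0 := by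
    intro h
    have := (ZMod.natCast_eq_zero_iff 1 q).1 (by simpa using h)
    exact h1 (Nat.dvd_one.1 this)
  have hne : ∀ i : ZMod q, i + 1 ≠ i := fun i h => h10 (by simpa using h)
  set c : Equiv.Perm (ZMod q) := Equiv.addRight 1 with hc
  have hc1 : (1 : Equiv.Perm (ZMod q)) ≠ c := by
    intro h
    have := congrArg (fun σ : Equiv.Perm (ZMod q) => σ 0) h
    exact h10 (by simpa [hc] using this.symm)
  have hsign : Equiv.Perm.sign c = 1 := by
    have hp : c ^ q = 1 := by
      have : ∀ n : ℕ, c ^ n = Equiv.addRight (n : ZMod q) := by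
        intro n
        induction n with
        | zero => ext; simp
        | succ n ih => ext; simp [pow_succ', ih, hc, add_assoc]
      rw [this]
      ext
      simp
    have := congrArg Equiv.Perm.sign hp
    rw [map_pow, map_one] at this
    rcases Int.units_eq_one_or (Equiv.Perm.sign c) with h | h
    · exact h
    · rw [h, hodd.neg_one_pow] at this
      exact absurd this (by decide)
  rw [← det_transpose, det_apply, ← Finset.sum_subset (Finset.subset_univ {1, c}),
    Finset.sum_pair hc1]
  · rw [hsign]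
    simp [hc, hne, (hne _).symm]
  · intro σ _ hσ
    simp only [Finset.mem_insert, Finset.mem_singleton, not_or] at hσ
    by_contra hprod
    have hall : ∀ i, σ i = i ∨ σ i = i + 1 := by
      intro i
      by_contra hi
      rw [not_or] at hi
      apply hprod
      rw [Finset.prod_eq_zero (Finset.mem_univ i), smul_zero]
      simp [Ne.symm hi.1, Ne.symm hi.2]
    obtain ⟨i₀, hi₀⟩ : ∃ i, σ i = i + 1 := by
      by_contra hno
      apply hσ.1
      ext i
      rcases hall i with h | h
      · simpa using h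
      · exact absurd ⟨i, h⟩ hno
    have hstep : ∀ n : ℕ, σ (i₀ + n) = i₀ + n + 1 := by
      intro n
      induction n with
      | zero => simpa using hi₀
      | succ n ih =>
        rcases hall (i₀ + (n + 1 : ℕ)) with h | h
        · exfalso
          have : σ (i₀ + (n + 1 : ℕ)) = σ (i₀ + n) := by
            rw [h, ih]
            push_cast
            ring
          have := σ.injective this
          apply hne (i₀ + n)
          rw [add_assoc, ← Nat.cast_succ]
          exact this
        · exact h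
    apply hσ.2
    ext i
    have := hstep (i - i₀).val
    simpa [hc] using this

end Heis

end Pool.Agent.Lib.MP_75c153_gt
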