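import Pool.Agent.Lib.MP_75c153_gt.Heis

/-! The element `(y - 2)(y - 3) - (6 - y) x` of the group ring of the Heisenberg group. -/

namespace Pool.Agent.Lib.MP_75c153_gt

open Filter Topology Polynomial Matrix MeasureTheory
open scoped ComplexOrder

variable {G : Type} [Group G]

/-- The element `(y - 2)(y - 3) - (6 - y) x`. -/
noncomputable def elt (x y : G) : MonoidAlgebra ℤ G :=
  (MonoidAlgebra.single y 1 - 2) * (MonoidAlgebra.single y 1 - 3) -
    (6 - MonoidAlgebra.single y 1) * MonoidAlgebra.single x 1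

/-- The one by one matrix with a given entry. -/
def one11 (a : MonoidAlgebra ℤ G) : Matrix (Fin 1) (Fin 1) (MonoidAlgebra ℤ G) :=
  Matrix.of fun _ _ => a

theorem one11_pow (a : MonoidAlgebra ℤ G) (k : ℕ) (i : Fin 1) :
    ((one11 a * adj (one11 a)) ^ k) i i = (a * bar a) ^ k := by
  have h : one11 a * adj (one11 a) = Matrix.diagonal fun _ => a * bar a := by
    ext1 i j
    simp [one11, adj, Matrix.mul_apply, Subsingleton.elim i j]
  rw [h, Matrix.diagonal_pow]
  simp

theorem sum_map_finsetSum {ι : Type} (s : Finset ι) (m : ι → Multiset ℝ) (f : ℝ → ℝ) :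
    ((∑ i ∈ s, m i).map f).sum = ∑ i ∈ s, ((m i).map f).sum := by
  classical
  induction s using Finset.induction_on with
  | empty => simp
  | insert a s ha ih => simp [Finset.sum_insert ha, ih]

section blocks

variable (φ : G →* Heis ℤ) {x y : G} (q : ℕ) [NeZero q] (ξ : ℂ) (hξ : ξ ≠ 0)

/-- The image of the element in a monomial representation. -/
noncomputable def blockB (c : MonoidAlgebra ℤ G) (p : ZMod q × ZMod q) :
    Matrix (ZMod q) (ZMod q) ℂ :=
  rep ((Heis.mono q ξ hξ p.1 p.2).comp φ) c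

theorem blockB_eq (hx : φ x = ⟨1, 0, 0⟩) (hy : φ y = ⟨0, 1, 0⟩) (p : ZMod q × ZMod q) :
    blockB φ q ξ hξ (elt x y) p = Matrix.of fun i j =>
      (if i = j then (ZMod.stdAddChar (p.1 + p.2 * i) - 2) *
        (ZMod.stdAddChar (p.1 + p.2 * i) - 3) else 0) +
      (if i + 1 = j then -ξ * (6 - ZMod.stdAddChar (p.1 + p.2 * i)) else 0) := by
  have hY : rep ((Heis.mono q ξ hξ p.1 p.2).comp φ) (MonoidAlgebra.single y 1) =
      Matrix.diagonal fun i => ZMod.stdAddChar (p.1 + p.2 * i) := by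
    ext i j
    simp [rep_single, hy, Heis.mono, Matrix.diagonal_apply]
  have hX : rep ((Heis.mono q ξ hξ p.1 p.2).comp φ) (MonoidAlgebra.single x 1) =
      Matrix.of fun i j => if i + 1 = j then ξ else 0 := by
    ext i j
    simp [rep_single, hx, Heis.mono]
  have hn : ∀ (c : ℕ) [c.AtLeastTwo], (OfNat.ofNat c : Matrix (ZMod q) (ZMod q) ℂ) =
      Matrix.diagonal fun _ => (OfNat.ofNat c : ℂ) := fun c _ => (Matrix.diagonal_ofNat c).symm
  rw [blockB, elt]
  simp only [map_sub, map_mul, map_ofNat, hX, hY, hn, Matrix.diagonal_sub,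
    Matrix.diagonal_mul_diagonal]
  ext i j
  simp only [Matrix.sub_apply, Matrix.diagonal_mul, Matrix.diagonal_apply, of_apply]
  split_ifs <;> ring

theorem blockB_det (hx : φ x = ⟨1, 0, 0⟩) (hy : φ y = ⟨0, 1, 0⟩) (hodd : Odd q) (h1 : q ≠ 1)
    (p : ZMod q × ZMod q) (hp : IsUnit p.2) :
    (blockB φ q ξ hξ (elt x y) p).det = (2 ^ q - 1) * (3 ^ q - 1) + (-ξ) ^ q * (6 ^ q - 1) := by
  rw [blockB_eq φ q ξ hξ hx hy, Heis.det_cyclic q hodd h1]
  obtain ⟨u, hu⟩ := hp
  have hbij : Function.Bijective fun i : ZMod q => p.1 + p.2 * i := by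
    rw [← hu]
    exact (Equiv.addLeft p.1).bijective.comp u.mulLeft.bijective
  have hprod : ∀ c : ℂ, ∏ i : ZMod q, (c - ZMod.stdAddChar (p.1 + p.2 * i)) = c ^ q - 1 := by
    intro c
    rw [← Heis.prod_sub_char q c]
    exact hbij.prod_comp fun j => c - ZMod.stdAddChar j
  rw [← hprod 2, ← hprod 3, ← hprod 6, Finset.prod_mul_distrib (f := fun _ => -ξ),
    Finset.prod_const, Finset.card_univ, ZMod.card, ← Finset.prod_mul_distrib]
  congr 1
  exact Finset.prod_congr rfl fun i _ => by ring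

theorem blockB_bound (hx : φ x = ⟨1, 0, 0⟩) (hy : φ y = ⟨0, 1, 0⟩) (h1 : ‖ξ‖ = 1)
    (p : ZMod q × ZMod q) (i : ZMod q) :
    ∑ j, ‖(blockB φ q ξ hξ (elt x y) p * (blockB φ q ξ hξ (elt x y) p)ᴴ) i j‖ ≤ 361 := by
  have hent : ∀ i j, ‖blockB φ q ξ hξ (elt x y) p i j‖ ≤
      (if i = j then 12 else 0) + (if i + 1 = j then 7 else 0) := by
    intro i j
    rw [blockB_eq φ q ξ hξ hx hy, of_apply]
    have hc := Heis.norm_char q (p.1 + p.2 * i)
    set η := ZMod.stdAddChar (p.1 + p.2 * i)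
    refine (norm_add_le _ _).trans (add_le_add ?_ ?_)
    · split_ifs
      · have a1 : ‖η - 2‖ ≤ 3 := (norm_sub_le _ _).trans (by rw [hc]; norm_num)
        have a2 : ‖η - 3‖ ≤ 4 := (norm_sub_le _ _).trans (by rw [hc]; norm_num)
        rw [norm_mul]
        nlinarith [norm_nonneg (η - 2), norm_nonneg (η - 3)]
      · simp
    · split_ifs
      · rw [norm_mul, norm_neg, h1, one_mul]
        exact (norm_sub_le _ _).trans (by rw [hc]; norm_num)
      · simp
  have hrow : ∀ i, ∑ j, ‖blockB φ q ξ hξ (elt x y) p i j‖ ≤ 19 := by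
    intro i
    refine (Finset.sum_le_sum fun j _ => hent i j).trans ?_
    rw [Finset.sum_add_distrib]
    norm_num
  have hcol : ∀ j, ∑ i, ‖blockB φ q ξ hξ (elt x y) p i j‖ ≤ 19 := by
    intro j
    refine (Finset.sum_le_sum fun i _ => hent i j).trans ?_
    rw [Finset.sum_add_distrib]
    simp only [← eq_sub_iff_add_eq]
    norm_num
  calc ∑ j, ‖(blockB φ q ξ hξ (elt x y) p * (blockB φ q ξ hξ (elt x y) p)ᴴ) i j‖
      ≤ ∑ j, ∑ k, ‖blockB φ q ξ hξ (elt x y) p i k‖ * ‖blockB φ q ξ hξ (elt x y) p j k‖ := by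
        refine Finset.sum_le_sum fun j _ => ?_
        rw [Matrix.mul_apply]
        refine (norm_sum_le _ _).trans (le_of_eq (Finset.sum_congr rfl fun k _ => ?_))
        simp
    _ = ∑ k, ‖blockB φ q ξ hξ (elt x y) p i k‖ * ∑ j, ‖blockB φ q ξ hξ (elt x y) p j k‖ := by
        rw [Finset.sum_comm]
        simp_rw [Finset.mul_sum]
    _ ≤ ∑ k, ‖blockB φ q ξ hξ (elt x y) p i k‖ * 19 :=
        Finset.sum_le_sum fun k _ => mul_le_mul_of_nonneg_left (hcol k) (norm_nonneg _)
    _ ≤ 361 := by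
        rw [← Finset.sum_mul]
        linarith [hrow i]

/-- Squared singular values of one block. -/
noncomputable def bEigs (c : MonoidAlgebra ℤ G) (p : ZMod q × ZMod q) : Multiset ℝ :=
  eigs (posSemidef_self_mul_conjTranspose (blockB φ q ξ hξ c p)).isHermitian

theorem bEigs_mem (hx : φ x = ⟨1, 0, 0⟩) (hy : φ y = ⟨0, 1, 0⟩) (h1 : ‖ξ‖ = 1)
    (p : ZMod q × ZMod q) : ∀ z ∈ bEigs φ q ξ hξ (elt x y) p, 0 ≤ z ∧ z ≤ 361 := fun z hz =>
  ⟨eigs_nonneg (posSemidef_self_mul_conjTranspose _) z hz,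
    (le_abs_self z).trans (eigs_abs_le _ (blockB_bound φ q ξ hξ hx hy h1 p) z hz)⟩

theorem bEigs_card (c : MonoidAlgebra ℤ G) (p : ZMod q × ZMod q) : (bEigs φ q ξ hξ c p).card = q := by
  simp [bEigs, eigs, ZMod.card]

theorem bEigs_log (c : MonoidAlgebra ℤ G) (p : ZMod q × ZMod q) (hd : (blockB φ q ξ hξ c p).det ≠ 0) :
    ((bEigs φ q ξ hξ c p).map Real.log).sum = 2 * Real.log ‖(blockB φ q ξ hξ c p).det‖ ∧
      ∀ z ∈ bEigs φ q ξ hξ c p, 0 < z := by
  have h := sum_log_eigs_of_det (posSemidef_self_mul_conjTranspose (blockB φ q ξ hξ c p))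
    (by simpa [det_conjTranspose] using hd)
  refine ⟨?_, h.2⟩
  rw [bEigs, h.1, det_mul, det_conjTranspose, norm_mul, norm_star, ← sq, Real.log_pow]
  norm_num

open Classical in
theorem bEigs_pow (h1 : ‖ξ‖ = 1) (c : MonoidAlgebra ℤ G) (k : ℕ) :
    ((((∑ p, bEigs φ q ξ hξ c p).map fun z => z ^ k).sum : ℝ) : ℂ) =
      (q : ℂ) ^ 3 * ∑ g ∈ ((c * bar c) ^ k).coeff.support,
        (((c * bar c) ^ k).coeff g : ℂ) *
          (if g ∈ ((Heis.red q).comp φ).ker then ξ ^ (φ g).a else 0) := by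
  have e : ∀ p : ZMod q × ZMod q, ((((bEigs φ q ξ hξ c p).map fun z => z ^ k).sum : ℝ) : ℂ) =
      (rep ((Heis.mono q ξ hξ p.1 p.2).comp φ) ((c * bar c) ^ k)).trace := by
    intro p
    rw [map_pow, map_mul, rep_bar _ fun g => by simp [Heis.mono_inv q ξ hξ h1]]
    exact (trace_pow_eq _ k).symm
  rw [sum_map_finsetSum, Complex.ofReal_sum]
  simp only [e, trace_rep]
  rw [Finset.sum_comm, Finset.mul_sum]
  refine Finset.sum_congr rfl fun g _ => ?_
  rw [← Finset.mul_sum, mul_left_comm]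
  congr 1
  convert Heis.sum_trace_mono q ξ hξ (φ g) using 3 <;> rfl

end blocks

theorem index_ker (φ : G →* Heis ℤ) (hφ : Function.Surjective φ) (q : ℕ) :
    ((Heis.red q).comp φ).ker.index = q ^ 3 := by
  have h : Function.Surjective ((Heis.red q).comp φ) := (Heis.red_surj q).comp hφ
  rw [Subgroup.index_ker, MonoidHom.range_eq_top.2 h,
    Subgroup.card_top, Heis.card_zmod]

theorem finiteIndex_ker (φ : G →* Heis ℤ) (hφ : Function.Surjective φ) (q : ℕ) (hq : q ≠ 0) :
    ((Heis.red q).comp φ).ker.FiniteIndex :=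
  ⟨by rw [index_ker φ hφ]; exact pow_ne_zero _ hq⟩

theorem mem_ker_iff (φ : G →* Heis ℤ) (q : ℕ) (g : G) :
    g ∈ ((Heis.red q).comp φ).ker ↔ (q : ℤ) ∣ (φ g).a ∧ (q : ℤ) ∣ (φ g).b ∧ (q : ℤ) ∣ (φ g).c := by
  simp [MonoidHom.mem_ker, Heis.red_eq_one, ZMod.intCast_zmod_eq_zero_iff_dvd]

theorem avoid_ker (φ : G →* Heis ℤ) (hφ : Function.Injective φ) (q : ℕ → ℕ)
    (hq : Tendsto q atTop atTop) :
    ∀ g, g ≠ 1 → ∀ᶠ n in atTop, g ∉ ((Heis.red (q n)).comp φ).ker := by
  intro g hg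
  filter_upwards [hq.eventually_gt_atTop
    ((φ g).a.natAbs + (φ g).b.natAbs + (φ g).c.natAbs)] with n hn h
  rw [mem_ker_iff] at h
  apply hg
  apply hφ
  rw [map_one]
  ext
  · exact Int.eq_zero_of_dvd_of_natAbs_lt_natAbs h.1 (by simp; omega)
  · exact Int.eq_zero_of_dvd_of_natAbs_lt_natAbs h.2.1 (by simp; omega)
  · exact Int.eq_zero_of_dvd_of_natAbs_lt_natAbs h.2.2 (by simp; omega)

/-- Lower bound for the regularised logarithmic integrals of the spectral measure. -/
theorem lower_reg (φ : G →* Heis ℤ) (hφ : Function.Injective φ) {x y : G}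
    (hx : φ x = ⟨1, 0, 0⟩) (hy : φ y = ⟨0, 1, 0⟩) (μ : Measure ℝ)
    (hμ : IsSpecMeasure (one11 (elt x y) * adj (one11 (elt x y))) μ) (ε : ℝ) (hε : 0 < ε) :
    2 * Real.log 6 ≤ ∫ z, Real.log (|z| + ε) ∂μ := by
  classical
  choose ℓ hℓ hp using fun n : ℕ => Nat.exists_infinite_primes (n + 3)
  have hne : ∀ n, NeZero (ℓ n) := fun n => ⟨(hp n).ne_zero⟩
  have hT : Tendsto ℓ atTop atTop :=
    tendsto_atTop_mono (fun n => le_trans (Nat.le_add_right n 3) (hℓ n)) tendsto_id
  have hm1 : (-1 : ℂ) ≠ 0 := by norm_num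
  have hF : Fam (fun k => (vnTrace ((one11 (elt x y) * adj (one11 (elt x y))) ^ k) : ℝ)) 361
      (fun n => 1 / (ℓ n : ℝ) ^ 3) (fun n => ∑ p, bEigs φ (ℓ n) (-1) hm1 (elt x y) p) := by
    refine ⟨fun n => by positivity, fun n z hz => ?_, fun k => ?_⟩
    · obtain ⟨p, -, hp⟩ := Multiset.mem_sum.1 hz
      exact bEigs_mem φ (ℓ n) (-1) hm1 hx hy (by simp) p z hp
    · filter_upwards [eventually_coeff (fun n => ((Heis.red (ℓ n)).comp φ).ker)
        (avoid_ker φ hφ ℓ hT) (fun g => (-1 : ℂ) ^ (φ g).a) (by simp)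
        ((elt x y * bar (elt x y)) ^ k)] with n hn
      have h := bEigs_pow φ (ℓ n) (-1) hm1 (by simp) (elt x y) k
      have hl : (ℓ n : ℂ) ≠ 0 := by exact_mod_cast (hp n).ne_zero
      apply Complex.ofReal_injective
      rw [Complex.ofReal_mul, h, vnTrace, Fin.sum_univ_one, one11_pow]
      erw [hn]
      push_cast
      field_simp
  obtain ⟨hfin, ⟨S, hS⟩, hm⟩ := hμ
  have hlim := hF.tendsto μ hS hm _ (logeps_cont hε)
  have hlim2 : Tendsto (fun n => 2 * Real.log 6 + (Real.log ε - 2 * Real.log 6) * (1 / (ℓ n : ℝ)))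
      atTop (𝓝 (2 * Real.log 6 + (Real.log ε - 2 * Real.log 6) * 0)) :=
    ((tendsto_one_div_atTop_nhds_zero_nat.comp hT).const_mul _).const_add _
  rw [mul_zero, add_zero] at hlim2
  refine le_of_tendsto_of_tendsto' hlim2 hlim fun n => ?_
  have := Fact.mk (hp n)
  have hodd : Odd (ℓ n) := (hp n).odd_of_ne_two (by have := hℓ n; omega)
  have hblock : ∀ p : ZMod (ℓ n) × ZMod (ℓ n),
      (ℓ n : ℝ) * (2 * Real.log 6) + (if p.2 = 0 then
        (ℓ n : ℝ) * (Real.log ε - 2 * Real.log 6) else 0) ≤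
      ((bEigs φ (ℓ n) (-1) hm1 (elt x y) p).map fun z => Real.log (|z| + ε)).sum := by
    intro p
    split_ifs with h0
    · have : ((bEigs φ (ℓ n) (-1) hm1 (elt x y) p).map fun _ => Real.log ε).sum ≤
          ((bEigs φ (ℓ n) (-1) hm1 (elt x y) p).map fun z => Real.log (|z| + ε)).sum :=
        Multiset.sum_map_le_sum_map _ _ fun z _ =>
          Real.log_le_log hε (by linarith [abs_nonneg z])
      rw [Multiset.map_const', Multiset.sum_replicate, bEigs_card, nsmul_eq_mul] at this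
      linarith
    · have hdet := blockB_det φ (ℓ n) (-1) hm1 hx hy hodd (hp n).ne_one p (IsUnit.mk0 _ h0)
      have h2 : (2 : ℝ) ≤ 2 ^ ℓ n := le_self_pow₀ (by norm_num) (hp n).ne_zero
      have h3 : (3 : ℝ) ≤ 3 ^ ℓ n := le_self_pow₀ (by norm_num) (hp n).ne_zero
      have h6 : (0 : ℝ) < 6 ^ ℓ n := by positivity
      have hn : (6 : ℝ) ^ ℓ n ≤ ‖(blockB φ (ℓ n) (-1) hm1 (elt x y) p).det‖ := by
        have : (blockB φ (ℓ n) (-1) hm1 (elt x y) p).det =
            (((2 ^ ℓ n - 1) * (3 ^ ℓ n - 1) + (6 ^ ℓ n - 1) : ℝ) : ℂ) := by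
          rw [hdet]
          simp
        rw [this, Complex.norm_real]
        refine le_trans ?_ (le_abs_self _)
        nlinarith
      obtain ⟨e1, e2⟩ := bEigs_log φ (ℓ n) (-1) hm1 (elt x y) p
        (norm_pos_iff.1 (h6.trans_le hn))
      have h4 : ((bEigs φ (ℓ n) (-1) hm1 (elt x y) p).map Real.log).sum ≤
          ((bEigs φ (ℓ n) (-1) hm1 (elt x y) p).map fun z => Real.log (|z| + ε)).sum :=
        Multiset.sum_map_le_sum_map _ _ fun z hz =>
          Real.log_le_log (e2 z hz) (by linarith [le_abs_self z])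
      have h5 := Real.log_le_log h6 hn
      rw [Real.log_pow] at h5
      linarith
  have hsum := Finset.sum_le_sum fun p (_ : p ∈ Finset.univ) => hblock p
  rw [sum_map_finsetSum]
  have hl : (0 : ℝ) < ℓ n := by exact_mod_cast (hp n).pos
  refine le_trans (le_of_eq ?_) (mul_le_mul_of_nonneg_left hsum (by positivity))
  rw [Fintype.sum_prod_type]
  simp only [Finset.sum_add_distrib, Finset.sum_ite_eq', Finset.mem_univ,
    if_true, Finset.sum_const, Finset.card_univ, ZMod.card, nsmul_eq_mul]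
  field_simp

theorem chain_eq_blocks (φ : G →* Heis ℤ) (hφ : Function.Surjective φ) (N : ℕ → Subgroup G)
    [∀ n, (N n).Normal] [∀ n, (N n).FiniteIndex] (n q : ℕ) [NeZero q]
    (hN : N n = ((Heis.red q).comp φ).ker) (c : MonoidAlgebra ℤ G) (f : ℝ → ℝ) (hf : f 0 = 0) :
    ((chainEigs N (cpos_mul_adj (one11 c)) n).map f).sum =
      ((∑ p, bEigs φ q 1 one_ne_zero c p).map f).sum := by
  classical
  have hidx : (N n).index = q ^ 3 := by rw [hN, index_ker φ hφ]
  refine multiset_sum_eq_of_powers _ _ (fun k => ?_) _ hf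
  let : Fintype (G ⧸ N n) := Fintype.ofFinite _
  apply Complex.ofReal_injective
  rw [bEigs_pow φ q 1 one_ne_zero (by simp), chainEigs, power_sum_cover (cpos_mul_adj _),
    Fin.sum_univ_one, one11_pow, trace_rep, Complex.ofReal_sum, Finset.mul_sum]
  refine Finset.sum_congr rfl fun g _ => ?_
  rw [regRep_trace, hidx]
  have : g ∈ N n ↔ g ∈ ((Heis.red q).comp φ).ker := by rw [hN]
  by_cases h : g ∈ N n
  · rw [if_pos h, if_pos (this.1 h)]
    push_cast
    simp [mul_comm]
  · rw [if_neg h, if_neg (fun h' => h (this.2 h'))]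
    simp

/-- Upper bound on the congruence quotients of level a positive power of five. -/
theorem upper_chain (φ : G →* Heis ℤ) (hφ : Function.Surjective φ) {x y : G}
    (hx : φ x = ⟨1, 0, 0⟩) (hy : φ y = ⟨0, 1, 0⟩) (N : ℕ → Subgroup G) [∀ n, (N n).Normal]
    [∀ n, (N n).FiniteIndex] (hN : ∀ n, N n = ((Heis.red (5 ^ n)).comp φ).ker) (n : ℕ) :
    ((chainEigs N (cpos_mul_adj (one11 (elt x y))) (n + 1)).map Real.log).sum /
      (N (n + 1)).index ≤ 2 * (Real.log 4864 / 5) := by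
  classical
  set q := 5 ^ (n + 1) with hq
  have hq0 : q ≠ 0 := by positivity
  have : NeZero q := ⟨hq0⟩
  have hidx : (N (n + 1)).index = q ^ 3 := by rw [hN, index_ker φ hφ]
  have e := chain_eq_blocks φ hφ N (n + 1) q (hN _) (elt x y) _ Real.log_zero
  have hodd : Odd q := (by decide : Odd 5).pow
  have hq5 : 5 ≤ q := by
    rw [hq, pow_succ]
    have := Nat.one_le_pow n 5 (by norm_num)
    omega
  have hblock : ∀ p : ZMod q × ZMod q, ((bEigs φ q 1 one_ne_zero (elt x y) p).map Real.log).sum ≤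
      (q : ℝ) * Real.log 361 + (if IsUnit p.2 then (q : ℝ) * (2 * Real.log 4 - Real.log 361)
        else 0) := by
    intro p
    split_ifs with hu
    · have hdet := blockB_det φ q 1 one_ne_zero hx hy hodd (by omega) p hu
      have h2 : (2 : ℝ) ≤ 2 ^ q := le_self_pow₀ (by norm_num) hq0
      have h3 : (3 : ℝ) ≤ 3 ^ q := le_self_pow₀ (by norm_num) hq0
      have hn : ‖(blockB φ q 1 one_ne_zero (elt x y) p).det‖ = 3 ^ q + 2 ^ q - 2 := by
        have : (blockB φ q 1 one_ne_zero (elt x y) p).det = ((-(3 ^ q + 2 ^ q - 2) : ℝ) : ℂ) := by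
          rw [hdet, hodd.neg_one_pow, show (6 : ℂ) = 2 * 3 by norm_num, mul_pow]
          push_cast
          ring
        rw [this, Complex.norm_real, Real.norm_eq_abs, abs_neg, abs_of_nonneg (by linarith)]
      have hpos : (0 : ℝ) < 3 ^ q + 2 ^ q - 2 := by linarith
      obtain ⟨e1, -⟩ := bEigs_log φ q 1 one_ne_zero (elt x y) p
        (norm_pos_iff.1 (hn ▸ hpos))
      have h4 : ∀ m : ℕ, (3 : ℝ) ^ (m + 2) + 2 ^ (m + 2) ≤ 4 ^ (m + 2) := by
        intro m
        have a1 : (3 : ℝ) ^ m ≤ 4 ^ m := pow_le_pow_left₀ (by norm_num) (by norm_num) m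
        have a2 : (2 : ℝ) ^ m ≤ 4 ^ m := pow_le_pow_left₀ (by norm_num) (by norm_num) m
        have a3 : (0 : ℝ) < 4 ^ m := by positivity
        rw [pow_add, pow_add, pow_add]
        nlinarith
      have h5 := h4 (q - 2)
      rw [Nat.sub_add_cancel (by omega)] at h5
      have h6 := Real.log_le_log hpos (show (3 : ℝ) ^ q + 2 ^ q - 2 ≤ 4 ^ q by linarith)
      rw [Real.log_pow] at h6
      rw [e1, hn]
      linarith
    · have : ((bEigs φ q 1 one_ne_zero (elt x y) p).map Real.log).sum ≤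
          ((bEigs φ q 1 one_ne_zero (elt x y) p).map fun _ => Real.log 361).sum := by
        refine Multiset.sum_map_le_sum_map _ _ fun z hz => ?_
        obtain ⟨a1, a2⟩ := bEigs_mem φ q 1 one_ne_zero hx hy (by simp) p z hz
        rcases a1.eq_or_lt with h | h
        · rw [← h, Real.log_zero]
          exact Real.log_nonneg (by norm_num)
        · exact Real.log_le_log h a2
      rw [Multiset.map_const', Multiset.sum_replicate, bEigs_card, nsmul_eq_mul] at this
      linarith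
  have hsum := Finset.sum_le_sum fun p (_ : p ∈ Finset.univ) => hblock p
  have hcard : ((Finset.univ.filter fun t : ZMod q => IsUnit t).card : ℝ) = 4 / 5 * q := by
    have h1 : (Finset.univ.filter fun t : ZMod q => IsUnit t).card = Nat.totient q := by
      rw [← ZMod.card_units_eq_totient, ← Fintype.card_subtype]
      exact Fintype.card_congr (Submonoid.unitsTypeEquivIsUnitSubmonoid.toEquiv.symm)
    rw [h1, hq, Nat.totient_prime_pow_succ (by norm_num)]
    push_cast
    ring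
  rw [e, hidx, sum_map_finsetSum, div_le_iff₀ (by positivity)]
  refine hsum.trans (le_of_eq ?_)
  rw [Fintype.sum_prod_type]
  simp only [Finset.sum_add_distrib, Finset.sum_const, Finset.card_univ,
    ZMod.card, nsmul_eq_mul, ← Finset.sum_filter, hcard]
  have h1 : Real.log 4864 = 4 * Real.log 4 + Real.log 19 := by
    rw [show (4864 : ℝ) = 4 ^ 4 * 19 by norm_num, Real.log_mul (by norm_num) (by norm_num),
      Real.log_pow]
    norm_num
  have h2 : Real.log 361 = 2 * Real.log 19 := by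
    rw [show (361 : ℝ) = 19 ^ 2 by norm_num, Real.log_pow]
    norm_num
  rw [h1, h2]
  push_cast
  ring

theorem log_gap : Real.log 4864 / 5 < Real.log 6 := by
  rw [div_lt_iff₀ (by norm_num), mul_comm, show (5 : ℝ) = (5 : ℕ) by norm_num, ← Real.log_pow]
  exact Real.log_lt_log (by norm_num) (by norm_num)

end Pool.Agent.Lib.MP_75c153_gt
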