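import Pool.Agent.Lib.MP_75c153_gt.Acyc

/-! Assembly of the counterexamples. -/

namespace Pool.Agent.Lib.MP_75c153_gt

open Filter Topology Matrix MeasureTheory

/-- Boundary of the 3-cell of the nilmanifold. -/
noncomputable def nilRow : Matrix (Fin 1) (Fin 4) (MonoidAlgebra ℤ (Pi1 heisRel)) :=
  !![1 - sg gz, sg gy * sg gz - 1, sg gz - sg gx, 0]

theorem mtr_bd₃ (b : MonoidAlgebra ℤ (Pi1 heisRel)) (T : MonoidAlgebra ℤ (Pi1 heisRel) →+ ℝ)
    (k : ℕ) : mtr T ((bd₃ b * adj (bd₃ b)) ^ k) =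
      mtr T ((nilRow * adj nilRow) ^ k) + mtr T ((one11 b * adj (one11 b)) ^ k) := by
  have h1 : bd₃ b * adj (bd₃ b) = Matrix.diagonal ![(nilRow * adj nilRow) 0 0, b * bar b] := by
    ext1 i j
    fin_cases i <;> fin_cases j <;>
      simp [Matrix.mul_apply, adj, bd₃, nilRow, Fin.sum_univ_four]
  have h2 : nilRow * adj nilRow = Matrix.diagonal fun _ => (nilRow * adj nilRow) 0 0 := by
    ext1 i j
    simp [Subsingleton.elim i 0, Subsingleton.elim j 0]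
  rw [h1, diag2_pow, mtr_one11]
  congr 1
  conv_rhs => rw [h2, Matrix.diagonal_pow]
  simp [mtr]

theorem coverTorsion_eq (b : MonoidAlgebra ℤ (Pi1 heisRel)) (n : ℕ) :
    coverTorsion (bd₁ heisRel) (bd₂ heisRel) (bd₃ b) (chain5 n) =
      (1 / 2 * ((chainEigs chain5 (cpos_lap (bd₁ heisRel) (bd₂ heisRel)) n).map Real.log).sum -
        ((chainEigs chain5 (cpos_mul_adj (bd₂ heisRel)) n).map Real.log).sum +
        1 / 2 * ((chainEigs chain5 (cpos_mul_adj nilRow) n).map Real.log).sum) +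
      1 / 2 * ((chainEigs chain5 (cpos_mul_adj (one11 b)) n).map Real.log).sum := by
  classical
  let : Fintype (Pi1 heisRel ⧸ chain5 n) := Fintype.ofFinite _
  have e1 := chain_add chain5 (cpos_lap (bd₂ heisRel) (bd₃ b)) (cpos_mul_adj (bd₂ heisRel))
    (cpos_mul_adj (bd₃ b)) (fun T hT k => mtr_lap_pow T hT _ _ (bd₃_mul b) k) n _ Real.log_zero
  have e2 := chain_add chain5 (cpos_mul_adj (bd₃ b)) (cpos_mul_adj nilRow)
    (cpos_mul_adj (one11 b)) (fun T _ k => mtr_bd₃ b T _) n _ Real.log_zero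
  have f1 := logDetPos_eq (cpos_lap (bd₁ heisRel) (bd₂ heisRel) (chain5 n)).isHermitian
  have f2 := logDetPos_eq (cpos_lap (bd₂ heisRel) (bd₃ b) (chain5 n)).isHermitian
  have f3 := logDetPos_eq (cpos_mul_adj (bd₃ b) (chain5 n)).isHermitian
  have g : coverTorsion (bd₁ heisRel) (bd₂ heisRel) (bd₃ b) (chain5 n) = torsionOf
      (((chainEigs chain5 (cpos_lap (bd₁ heisRel) (bd₂ heisRel)) n).map Real.log).sum)
      (((chainEigs chain5 (cpos_lap (bd₂ heisRel) (bd₃ b)) n).map Real.log).sum)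
      (((chainEigs chain5 (cpos_mul_adj (bd₃ b)) n).map Real.log).sum) := by
    rw [chainEigs, chainEigs, chainEigs]
    erw [← f1, ← f2, ← f3]
    simp only [lap, cover_add, cover_mul, cover_adj]
    rfl
  rw [g, torsionOf, e1, e2]
  ring

theorem ae_mass {μ : Measure ℝ} {ν κ : Measure ℝ} [IsFiniteMeasure ν] [IsFiniteMeasure κ]
    (h : μ.restrict (Set.Ioi 0) = ν.restrict (Set.Ioi 0) + κ.restrict (Set.Ioi 0)) :
    μ.real (Set.Ioi 0) = ν.real (Set.Ioi 0) + κ.real (Set.Ioi 0) := by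
  have := congrArg (fun m : Measure ℝ => m.real Set.univ) h
  simpa [measureReal_add_apply, measureReal_restrict_apply] using this

theorem null_of_mass {ι : Type} [Fintype ι] [DecidableEq ι]
    {A : Matrix ι ι (MonoidAlgebra ℤ (Pi1 heisRel))} {μ : Measure ℝ} (h : IsSpecMeasure A μ)
    {S : ℝ} (hS : μ (Set.Icc 0 S)ᶜ = 0) (hm : (Fintype.card ι : ℝ) ≤ μ.real (Set.Ioi 0)) :
    μ {0} = 0 := by
  have := h.1
  have h1 := mass_split μ hS
  rw [spec_mass h] at h1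
  have h2 : μ.real {0} = 0 := le_antisymm (by linarith) measureReal_nonneg
  rwa [measureReal_eq_zero_iff] at h2

theorem mass_of_null {ι : Type} [Fintype ι] [DecidableEq ι]
    {A : Matrix ι ι (MonoidAlgebra ℤ (Pi1 heisRel))} {μ : Measure ℝ} (h : IsSpecMeasure A μ)
    {S : ℝ} (hS : μ (Set.Icc 0 S)ᶜ = 0) (hm : μ.real {0} = 0) :
    μ.real (Set.Ioi 0) = Fintype.card ι := by
  have := h.1
  have h1 := mass_split μ hS
  rw [spec_mass h, hm, zero_add] at h1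
  exact h1.symm

/-- The explicit failure of approximation for the Fuglede-Kadison determinant. -/
theorem fk_counter : ∃ μ : Measure ℝ,
    IsSpecMeasure (one11 (elt gx gy) * adj (one11 (elt gx gy))) μ ∧ (∃ S, μ (Set.Icc 0 S)ᶜ = 0) ∧
      μ {0} = 0 ∧ IntegrableOn Real.log (Set.Ioi 0) μ ∧ 2 * Real.log 6 ≤ logDetFK μ ∧
      ∀ n, ((chainEigs chain5 (cpos_mul_adj (one11 (elt gx gy))) (n + 1)).map Real.log).sum /
        (chain5 (n + 1)).index ≤ 2 * (Real.log 4864 / 5) := by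
  obtain ⟨μ, hμ, ⟨S, hS⟩, hint⟩ :=
    exists_specMeasure chain5 chain5_avoid (cpos_mul_adj (one11 (elt gx gy)))
  have := hμ.1
  have hreg := lower_reg toH toH_injective toH_x toH_y μ hμ
  obtain ⟨R, hR⟩ := hμ.2.1
  refine ⟨μ, hμ, ⟨S, hS⟩, ?_, hint, le_setIntegral_log μ hS hint _ fun ε h _ => hreg ε h,
    upper_chain toH toH_surjective toH_x toH_y chain5 fun _ => rfl⟩
  rw [← measureReal_eq_zero_iff]
  exact no_atom_of_reg μ hR _ hreg

theorem torsion_counter : ∃ (b : MonoidAlgebra ℤ (Pi1 heisRel)) (μ₀ μ₁ μ₂ μ₃ : Measure ℝ),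
    IsSpecMeasure (adj (bd₁ heisRel) * bd₁ heisRel) μ₀ ∧
    IsSpecMeasure (lap (bd₁ heisRel) (bd₂ heisRel)) μ₁ ∧
    IsSpecMeasure (lap (bd₂ heisRel) (bd₃ b)) μ₂ ∧ IsSpecMeasure (bd₃ b * adj (bd₃ b)) μ₃ ∧
    (∀ μ ∈ [μ₀, μ₁, μ₂, μ₃], μ {0} = 0 ∧ IntegrableOn Real.log (Set.Ioi 0) μ) ∧
    ¬ Tendsto (fun n => coverTorsion (bd₁ heisRel) (bd₂ heisRel) (bd₃ b) (chain5 n) /
        ((chain5 n).index : ℝ)) atTop
      (𝓝 (torsionOf (logDetFK μ₁) (logDetFK μ₂) (logDetFK μ₃))) := by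
  obtain ⟨μ₀, s₀, ⟨S₀, t₀⟩, i₀⟩ :=
    exists_specMeasure chain5 chain5_avoid (cpos_adj_mul (bd₁ heisRel))
  obtain ⟨μ₁, s₁, ⟨S₁, t₁⟩, i₁⟩ :=
    exists_specMeasure chain5 chain5_avoid (cpos_lap (bd₁ heisRel) (bd₂ heisRel))
  obtain ⟨ν₁, a₁, ⟨A₁, b₁⟩, j₁⟩ :=
    exists_specMeasure chain5 chain5_avoid (cpos_mul_adj (bd₁ heisRel))
  obtain ⟨ν₂, a₂, ⟨A₂, b₂⟩, j₂⟩ :=
    exists_specMeasure chain5 chain5_avoid (cpos_mul_adj (bd₂ heisRel))
  obtain ⟨νw, aw, ⟨Aw, bw⟩, jw⟩ := exists_specMeasure chain5 chain5_avoid (cpos_mul_adj nilRow)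
  have := s₀.1
  have := a₁.1
  have := a₂.1
  have := aw.1
  have m₁ : 1 ≤ ν₁.real (Set.Ioi 0) := one_le_mass _ !![0, 0, -1] 1 (by
    ext1 i j
    rw [Matrix.mul_one, Matrix.mul_apply, Fin.sum_univ_three, Subsingleton.elim i 0]
    simp [bd₁, one11, sg, gz])
    ν₁ a₁ b₁
  have mw : 1 ≤ νw.real (Set.Ioi 0) := one_le_mass _ 1 !![1; 0; 0; 0] (by
    ext1 i j
    simp [Matrix.mul_apply, Fin.sum_univ_four, nilRow, one11, Subsingleton.elim i 0,
      Subsingleton.elim j 0]) νw aw bw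
  have m₂ : 2 ≤ ν₂.real (Set.Ioi 0) := two_le_mass ν₂ a₂ b₂
  have z₀ : μ₀ {0} = 0 := by
    refine null_of_mass s₀ t₀ ?_
    obtain ⟨R, hR⟩ := s₀.2.1
    obtain ⟨R', hR'⟩ := a₁.2.1
    have e := restrict_eq_of_moments μ₀ ν₁ hR hR' fun k => by
      rw [s₀.2.2, a₁.2.2, vnTrace_eq, vnTrace_eq, mtr_pow_comm _ trInf_comm]
    have := congrArg (fun m : Measure ℝ => m.real Set.univ) e
    simp only [measureReal_restrict_apply MeasurableSet.univ, Set.univ_inter] at this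
    rw [this]
    simpa using m₁
  have hc : bd₂ heisRel * bd₁ heisRel = 0 := by
    have c1 : sg gx * sg gz = sg gz * sg gx := by rw [sg_mul, sg_mul, comm_xz.eq]
    have c2 : sg gy * sg gz = sg gz * sg gy := by rw [sg_mul, sg_mul, comm_yz.eq]
    have c3 : sg gx * sg gy = sg gz * (sg gy * sg gx) := by
      rw [sg_mul, sg_mul, sg_mul, rel_xy, ← mul_assoc, ← comm_yz.eq, mul_assoc, mul_assoc,
        comm_xz.eq]
    have hx : MonoidAlgebra.single (PresentedGroup.of 0 : Pi1 heisRel) (1 : ℤ) = sg gx := rfl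
    have hy : MonoidAlgebra.single (PresentedGroup.of 1 : Pi1 heisRel) (1 : ℤ) = sg gy := rfl
    have hz : MonoidAlgebra.single (PresentedGroup.of 2 : Pi1 heisRel) (1 : ℤ) = sg gz := rfl
    rw [bd₂_eq]
    ext1 i j
    fin_cases i <;>
      simp [Matrix.mul_apply, Fin.sum_univ_three, bd₁, hx, hy, hz, mul_sub, sub_mul, c1, c2, c3,
        mul_assoc]
    abel
  have z₁ : μ₁ {0} = 0 := by
    refine null_of_mass s₁ t₁ ?_
    rw [ae_mass (logDetFK_add s₁ a₁ a₂ j₁ j₂ fun T hT k => mtr_lap_pow T hT _ _ hc k).1]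
    norm_num
    linarith
  have key : ∀ (b : MonoidAlgebra ℤ (Pi1 heisRel)) (μ : Measure ℝ),
      IsSpecMeasure (one11 b * adj (one11 b)) μ → (∃ S, μ (Set.Icc 0 S)ᶜ = 0) → μ {0} = 0 →
      IntegrableOn Real.log (Set.Ioi 0) μ → ∃ μ₂ μ₃ : Measure ℝ,
        IsSpecMeasure (lap (bd₂ heisRel) (bd₃ b)) μ₂ ∧ IsSpecMeasure (bd₃ b * adj (bd₃ b)) μ₃ ∧
        (∀ μ ∈ [μ₀, μ₁, μ₂, μ₃], μ {0} = 0 ∧ IntegrableOn Real.log (Set.Ioi 0) μ) ∧
        torsionOf (logDetFK μ₁) (logDetFK μ₂) (logDetFK μ₃) =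
          (1 / 2 * logDetFK μ₁ - logDetFK ν₂ + 1 / 2 * logDetFK νw) + 1 / 2 * logDetFK μ := by
    intro b μ s ⟨S, t⟩ z i
    obtain ⟨μ₂, s₂, ⟨S₂, t₂⟩, i₂⟩ :=
      exists_specMeasure chain5 chain5_avoid (cpos_lap (bd₂ heisRel) (bd₃ b))
    obtain ⟨μ₃, s₃, ⟨S₃, t₃⟩, i₃⟩ := exists_specMeasure chain5 chain5_avoid (cpos_mul_adj (bd₃ b))
    have := s.1
    have := s₃.1
    obtain ⟨r₂, e₂⟩ := logDetFK_add s₂ a₂ s₃ j₂ i₃
      fun T hT k => mtr_lap_pow T hT _ _ (bd₃_mul b) k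
    obtain ⟨r₃, e₃⟩ := logDetFK_add s₃ aw s jw i fun T _ k => mtr_bd₃ b T _
    have mb := mass_of_null s t (by rw [measureReal_eq_zero_iff]; exact z)
    have m₃ : 2 ≤ μ₃.real (Set.Ioi 0) := by
      rw [ae_mass r₃, mb]
      norm_num
      linarith
    have z₃ : μ₃ {0} = 0 := null_of_mass s₃ t₃ (by simpa using m₃)
    have z₂ : μ₂ {0} = 0 := by
      refine null_of_mass s₂ t₂ ?_
      rw [ae_mass r₂]
      norm_num
      linarith
    refine ⟨μ₂, μ₃, s₂, s₃, ?_, ?_⟩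
    · simp only [List.mem_cons, List.not_mem_nil, or_false, forall_eq_or_imp, forall_eq]
      exact ⟨⟨z₀, i₀⟩, ⟨z₁, i₁⟩, ⟨z₂, i₂⟩, z₃, i₃⟩
    · rw [torsionOf, e₂, e₃]
      ring
  obtain ⟨μa, sa, ta, za, ia, la, ua⟩ := fk_counter
  obtain ⟨μ₂, μ₃, s₂, s₃, hall, e⟩ := key _ μa sa ta za ia
  have h11 : one11 (1 : MonoidAlgebra ℤ (Pi1 heisRel)) * adj (one11 1) = 1 := by
    ext1 i j
    rw [Subsingleton.elim i j]
    simp [Matrix.mul_apply, one11, adj, bar_one]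
  have sd : IsSpecMeasure (one11 (1 : MonoidAlgebra ℤ (Pi1 heisRel)) * adj (one11 1))
      (Measure.dirac 1) := by
    refine ⟨inferInstance, ⟨1, ?_⟩, fun k => ?_⟩
    · rw [Measure.dirac_apply' _ measurableSet_Icc.compl]
      simp
    · rw [h11]
      simp [vnTrace, MonoidAlgebra.one_def]
  obtain ⟨μ₂', μ₃', s₂', s₃', hall', e'⟩ := key 1 (Measure.dirac 1) sd
    ⟨1, by rw [Measure.dirac_apply' _ measurableSet_Icc.compl]; simp⟩ (by simp)
    (integrable_dirac (f := Real.log) (a := (1 : ℝ)) (by simp)).integrableOn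
  by_contra hcon
  simp only [not_exists, not_and, not_not] at hcon
  have T1 := hcon _ μ₀ μ₁ μ₂ μ₃ s₀ s₁ s₂ s₃ hall
  have T2 := hcon _ μ₀ μ₁ μ₂' μ₃' s₀ s₁ s₂' s₃' hall'
  have T3 := T1.sub T2
  have hd : logDetFK (Measure.dirac 1) = 0 := by
    simp [logDetFK, restrict_dirac]
  have h1 : ∀ n, ((chainEigs chain5 (cpos_mul_adj (one11 (1 : MonoidAlgebra ℤ (Pi1 heisRel))))
      n).map Real.log).sum = 0 := by
    intro n
    let : Fintype (Pi1 heisRel ⧸ chain5 n) := Fintype.ofFinite _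
    classical
    have h3 : cover (chain5 n) (one11 (1 : MonoidAlgebra ℤ (Pi1 heisRel)) * adj (one11 1)) = 1 := by
      rw [h11, cover_eq_blk, blk_one]
    have h2 := (sum_log_eigs_of_det (cpos_mul_adj (one11 (1 : MonoidAlgebra ℤ (Pi1 heisRel)))
      (chain5 n)) (by rw [h3]; simp)).1
    rw [chainEigs]
    erw [h2]
    rw [h3]
    simp
  rw [e, e', hd] at T3
  have T4 := (tendsto_add_atTop_iff_nat 1).2 T3
  have := le_of_tendsto' T4 (b := Real.log 4864 / 5) fun n => by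
    rw [coverTorsion_eq, coverTorsion_eq, h1, ← sub_div]
    have := ua n
    rw [mul_zero, add_zero, add_sub_cancel_left, mul_div_assoc]
    linarith
  linarith [log_gap]

end Pool.Agent.Lib.MP_75c153_gt
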