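import Pool.Agent.Lib.MP_75c153_gt.Key

/-! The presentation of the Heisenberg group and the Fox matrix. -/

namespace Pool.Agent.Lib.MP_75c153_gt

open Matrix

/-- The generator `x`. -/
def gx : Pi1 heisRel := PresentedGroup.of 0
/-- The generator `y`. -/
def gy : Pi1 heisRel := PresentedGroup.of 1
/-- The generator `z`. -/
def gz : Pi1 heisRel := PresentedGroup.of 2

theorem rel_one (j : Fin 4) :
    ((heisRel j).map fun p => if p.2 then (PresentedGroup.of p.1 : Pi1 heisRel)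
      else (PresentedGroup.of p.1)⁻¹).prod = 1 := by
  have h : PresentedGroup.mk (Set.range fun j => FreeGroup.mk (heisRel j))
      (FreeGroup.mk (heisRel j)) = 1 := PresentedGroup.one_of_mem ⟨j, rfl⟩
  have e : PresentedGroup.mk (Set.range fun j => FreeGroup.mk (heisRel j)) =
      FreeGroup.lift PresentedGroup.of := by
    ext i
    simp
    rfl
  rw [e, FreeGroup.lift_mk] at h
  rw [← h]
  congr 2
  funext p
  cases p.2 <;> rfl

theorem rel_xy : gx * gy = gy * gx * gz := by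
  have h := rel_one 0
  have h2 := rel_one 1
  have h3 := rel_one 2
  simp only [heisRel, Matrix.cons_val_zero, Matrix.cons_val_one, Matrix.cons_val, List.map_cons,
    List.map_nil, List.prod_cons, List.prod_nil, if_true, Bool.false_eq_true, if_false,
    mul_one] at h h2 h3
  change gx * (gy * (gx⁻¹ * (gy⁻¹ * gz⁻¹))) = 1 at h
  change gx * (gz * (gx⁻¹ * gz⁻¹)) = 1 at h2
  change gy * (gz * (gy⁻¹ * gz⁻¹)) = 1 at h3
  have c2 : gz * gx = gx * gz := by
    calc gz * gx = (gx * (gz * (gx⁻¹ * gz⁻¹))) * (gz * gx) := by rw [h2, one_mul]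
      _ = gx * gz := by group
  have c3 : gz * gy = gy * gz := by
    calc gz * gy = (gy * (gz * (gy⁻¹ * gz⁻¹))) * (gz * gy) := by rw [h3, one_mul]
      _ = gy * gz := by group
  calc gx * gy = (gx * (gy * (gx⁻¹ * (gy⁻¹ * gz⁻¹)))) * (gz * gy * gx) := by group
    _ = gy * gx * gz := by rw [h, one_mul, c3, mul_assoc, c2, mul_assoc]

theorem comm_xz : Commute gx gz := by
  have h2 := rel_one 1
  simp only [heisRel, Matrix.cons_val_zero, Matrix.cons_val_one, Matrix.cons_val, List.map_cons,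
    List.map_nil, List.prod_cons, List.prod_nil, if_true, Bool.false_eq_true, if_false,
    mul_one] at h2
  change gx * (gz * (gx⁻¹ * gz⁻¹)) = 1 at h2
  symm
  calc gz * gx = (gx * (gz * (gx⁻¹ * gz⁻¹))) * (gz * gx) := by rw [h2, one_mul]
    _ = gx * gz := by group

theorem comm_yz : Commute gy gz := by
  have h3 := rel_one 2
  simp only [heisRel, Matrix.cons_val_zero, Matrix.cons_val_one, Matrix.cons_val, List.map_cons,
    List.map_nil, List.prod_cons, List.prod_nil, if_true, Bool.false_eq_true, if_false,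
    mul_one] at h3
  change gy * (gz * (gy⁻¹ * gz⁻¹)) = 1 at h3
  symm
  calc gz * gy = (gy * (gz * (gy⁻¹ * gz⁻¹))) * (gz * gy) := by rw [h3, one_mul]
    _ = gy * gz := by group

theorem xpow_y (a : ℤ) : gx ^ a * gy * (gx ^ a)⁻¹ = gy * gz ^ a := by
  have h1 : gy⁻¹ * gx * gy = gx * gz := by
    rw [mul_assoc, rel_xy]
    group
  have h2 : gy⁻¹ * gx ^ a * gy = gx ^ a * gz ^ a := by
    rw [← comm_xz.mul_zpow, ← h1]
    have := conj_zpow (i := a) (a := gy⁻¹) (b := gx)
    simpa using this.symm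
  have h3 : gx ^ a * gz ^ a = gz ^ a * gx ^ a := (comm_xz.zpow_zpow a a).eq
  calc gx ^ a * gy * (gx ^ a)⁻¹ = gy * (gy⁻¹ * gx ^ a * gy) * (gx ^ a)⁻¹ := by group
    _ = gy * gz ^ a := by rw [h2, h3]; group

theorem xpow_ypow (a b : ℤ) : gx ^ a * gy ^ b = gy ^ b * gx ^ a * gz ^ (a * b) := by
  have h1 : gx ^ a * gy ^ b * (gx ^ a)⁻¹ = gy ^ b * gz ^ (a * b) := by
    rw [← conj_zpow, xpow_y, (comm_yz.zpow_right a).mul_zpow, ← _root_.zpow_mul]
  have h3 : gz ^ (a * b) * gx ^ a = gx ^ a * gz ^ (a * b) := (comm_xz.zpow_zpow a _).eq.symm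
  calc gx ^ a * gy ^ b = gx ^ a * gy ^ b * (gx ^ a)⁻¹ * gx ^ a := by group
    _ = _ := by rw [h1, mul_assoc, h3, mul_assoc]

/-- The images of the generators. -/
def genH : Fin 3 → Heis ℤ := ![⟨1, 0, 0⟩, ⟨0, 1, 0⟩, ⟨0, 0, 1⟩]

/-- The homomorphism to the matrix Heisenberg group. -/
def toH : Pi1 heisRel →* Heis ℤ :=
  PresentedGroup.toGroup (f := genH) (by
    rintro _ ⟨j, rfl⟩
    rw [FreeGroup.lift_mk]
    fin_cases j <;> (ext <;> simp [heisRel, genH]))

theorem toH_x : toH gx = ⟨1, 0, 0⟩ := PresentedGroup.toGroup.of _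
theorem toH_y : toH gy = ⟨0, 1, 0⟩ := PresentedGroup.toGroup.of _
theorem toH_z : toH gz = ⟨0, 0, 1⟩ := PresentedGroup.toGroup.of _

/-- The inverse homomorphism. -/
def ofH : Heis ℤ →* Pi1 heisRel where
  toFun g := gy ^ g.b * gx ^ g.a * gz ^ g.c
  map_one' := by simp
  map_mul' g h := by
    have c1 : gz ^ g.c * gy ^ h.b = gy ^ h.b * gz ^ g.c := (comm_yz.zpow_zpow _ _).eq.symm
    have c2 : ∀ c : ℤ, gz ^ c * gx ^ h.a = gx ^ h.a * gz ^ c := fun c =>
      (comm_xz.zpow_zpow _ _).eq.symm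
    calc gy ^ (g * h).b * gx ^ (g * h).a * gz ^ (g * h).c
        = gy ^ g.b * gy ^ h.b * gx ^ g.a * (gx ^ h.a * gz ^ (g.a * h.b + g.c)) * gz ^ h.c := by
          simp only [Heis.mul_a, Heis.mul_b, Heis.mul_c]
          group
      _ = gy ^ g.b * (gy ^ h.b * gx ^ g.a * gz ^ (g.a * h.b)) * gz ^ g.c * gx ^ h.a *
            gz ^ h.c := by
          rw [← c2]
          group
      _ = gy ^ g.b * gx ^ g.a * (gy ^ h.b * gz ^ g.c) * gx ^ h.a * gz ^ h.c := by
          rw [← xpow_ypow]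
          group
      _ = _ := by
          rw [← c1]
          group

theorem toH_injective : Function.Injective toH := by
  have : ofH.comp toH = MonoidHom.id _ := by
    apply PresentedGroup.ext
    intro i
    fin_cases i
    · change ofH (toH gx) = gx
      simp [toH_x, ofH]
    · change ofH (toH gy) = gy
      simp [toH_y, ofH]
    · change ofH (toH gz) = gz
      simp [toH_z, ofH]
  exact Function.LeftInverse.injective (g := ofH) fun g => DFunLike.congr_fun this g

theorem heis_zpow (u v w : ℤ) (h : u * v = 0) (n : ℤ) :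
    (⟨u, v, w⟩ : Heis ℤ) ^ n = ⟨n * u, n * v, n * w⟩ := by
  induction n using Int.induction_on with
  | zero => ext <;> simp
  | succ n ih =>
    rw [_root_.zpow_add_one, ih]
    ext <;> simp
    · ring
    · ring
    · linear_combination (n : ℤ) * h
  | pred n ih =>
    rw [_root_.zpow_sub_one, ih]
    ext <;> simp
    · ring
    · ring
    · linear_combination ((n : ℤ) + 1) * h

theorem toH_surjective : Function.Surjective toH := by
  intro g
  refine ⟨ofH g, ?_⟩
  change toH (gy ^ g.b * gx ^ g.a * gz ^ g.c) = g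
  rw [map_mul, map_mul, map_zpow, map_zpow, map_zpow, toH_x, toH_y, toH_z,
    heis_zpow _ _ _ (by simp), heis_zpow _ _ _ (by simp), heis_zpow _ _ _ (by simp)]
  ext <;> simp

/-- The congruence chain of level a power of five. -/
def chain5 (n : ℕ) : Subgroup (Pi1 heisRel) := ((Heis.red (5 ^ n)).comp toH).ker

instance chain5_normal (n : ℕ) : (chain5 n).Normal := MonoidHom.normal_ker _

instance chain5_finiteIndex (n : ℕ) : (chain5 n).FiniteIndex :=
  finiteIndex_ker toH toH_surjective _ (by positivity)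

theorem chain5_avoid : ∀ g, g ≠ 1 → ∀ᶠ n in Filter.atTop, g ∉ chain5 n :=
  avoid_ker toH toH_injective (fun n => 5 ^ n) (tendsto_pow_atTop_atTop_of_one_lt (by norm_num))

theorem chain5_zero : chain5 0 = ⊤ := by
  rw [eq_top_iff]
  intro g _
  rw [chain5, mem_ker_iff]
  simp

theorem chain5_strictAnti : StrictAnti chain5 := by
  apply strictAnti_nat_of_succ_lt
  intro n
  rw [SetLike.lt_iff_le_and_exists]
  constructor
  · intro g hg
    rw [chain5, mem_ker_iff] at hg ⊢
    have hd : ((5 ^ n : ℕ) : ℤ) ∣ ((5 ^ (n + 1) : ℕ) : ℤ) := by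
      exact_mod_cast pow_dvd_pow 5 (Nat.le_succ n)
    exact ⟨hd.trans hg.1, hd.trans hg.2.1, hd.trans hg.2.2⟩
  · refine ⟨gz ^ ((5 ^ n : ℕ) : ℤ), ?_, ?_⟩
    · rw [chain5, mem_ker_iff, map_zpow, toH_z, heis_zpow _ _ _ (by simp)]
      simp
    · rw [chain5, mem_ker_iff, map_zpow, toH_z, heis_zpow _ _ _ (by simp)]
      intro h
      have h3 := h.2.2
      simp only [mul_one] at h3
      have h4 := Nat.le_of_dvd (by positivity) (Int.natCast_dvd_natCast.1 h3)
      have := Nat.pow_lt_pow_right (show 1 < 5 by norm_num) (Nat.lt_succ_self n)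
      omega

theorem chain5_iInf : ⨅ n, chain5 n = ⊥ := by
  rw [eq_bot_iff]
  intro g hg
  by_contra h
  obtain ⟨n, hn⟩ := (chain5_avoid g h).exists
  exact hn (Subgroup.mem_iInf.1 hg n)

/-- The group ring elements of the generators. -/
noncomputable def sg (g : Pi1 heisRel) : MonoidAlgebra ℤ (Pi1 heisRel) := MonoidAlgebra.single g 1

theorem sg_mul (g h : Pi1 heisRel) : sg g * sg h = sg (g * h) := by
  simp [sg, MonoidAlgebra.single_mul_single]

theorem sg_one : sg 1 = 1 := rfl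

theorem bd₂_eq : bd₂ heisRel =
    !![1 - sg gy * sg gz, sg gx - sg gz, -1; 1 - sg gz, 0, sg gx - 1; 0, 1 - sg gz, sg gy - 1;
      0, 0, 0] := by
  have e1 : gx * (gy * gx⁻¹) = gy * gz := by
    rw [← mul_assoc, rel_xy, mul_assoc gy, comm_xz.eq]
    group
  have e2 : gx * (gy * (gx⁻¹ * gy⁻¹)) = gz := by
    calc gx * (gy * (gx⁻¹ * gy⁻¹)) = gx * (gy * gx⁻¹) * gy⁻¹ := by group
      _ = gz := by rw [e1, comm_yz.eq]; group
  have e3 : gx * (gy * (gx⁻¹ * (gy⁻¹ * gz⁻¹))) = 1 := by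
    calc gx * (gy * (gx⁻¹ * (gy⁻¹ * gz⁻¹))) = gx * (gy * (gx⁻¹ * gy⁻¹)) * gz⁻¹ := by group
      _ = 1 := by rw [e2]; group
  have e4 : gx * (gz * gx⁻¹) = gz := by rw [← mul_assoc, comm_xz.eq]; group
  have e5 : gx * (gz * (gx⁻¹ * gz⁻¹)) = 1 := by rw [← mul_assoc, comm_xz.eq]; group
  have e6 : gy * (gz * gy⁻¹) = gz := by rw [← mul_assoc, comm_yz.eq]; group
  have e7 : gy * (gz * (gy⁻¹ * gz⁻¹)) = 1 := by rw [← mul_assoc, comm_yz.eq]; group
  have hx : MonoidAlgebra.single (PresentedGroup.of 0 : Pi1 heisRel) (1 : ℤ) = sg gx := rfl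
  have hy : MonoidAlgebra.single (PresentedGroup.of 1 : Pi1 heisRel) (1 : ℤ) = sg gy := rfl
  have hz : MonoidAlgebra.single (PresentedGroup.of 2 : Pi1 heisRel) (1 : ℤ) = sg gz := rfl
  have hx' : MonoidAlgebra.single (PresentedGroup.of 0 : Pi1 heisRel)⁻¹ (1 : ℤ) = sg gx⁻¹ := rfl
  have hy' : MonoidAlgebra.single (PresentedGroup.of 1 : Pi1 heisRel)⁻¹ (1 : ℤ) = sg gy⁻¹ := rfl
  have hz' : MonoidAlgebra.single (PresentedGroup.of 2 : Pi1 heisRel)⁻¹ (1 : ℤ) = sg gz⁻¹ := rfl
  have r0 : heisRel 0 = [(0, true), (1, true), (0, false), (1, false), (2, false)] := rfl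
  have r1 : heisRel 1 = [(0, true), (2, true), (0, false), (2, false)] := rfl
  have r2 : heisRel 2 = [(1, true), (2, true), (1, false), (2, false)] := rfl
  have r3 : heisRel 3 = [] := rfl
  ext1 j i
  fin_cases j <;> fin_cases i <;>
    simp [bd₂, r0, r1, r2, r3, fox, hx, hy, hz, hx', hy', hz', mul_add, sg_mul, e1, e2, e3, e4, e5,
      e6, e7, sg_one, sub_eq_add_neg, add_comm]

/-- The third boundary map: the 3-cell of the nilmanifold and a 3-cell attached along `b` times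
the 2-sphere. -/
noncomputable def bd₃ (b : MonoidAlgebra ℤ (Pi1 heisRel)) :
    Matrix (Fin 2) (Fin 4) (MonoidAlgebra ℤ (Pi1 heisRel)) :=
  !![1 - sg gz, sg gy * sg gz - 1, sg gz - sg gx, 0; 0, 0, 0, b]

theorem bd₃_mul (b : MonoidAlgebra ℤ (Pi1 heisRel)) : bd₃ b * bd₂ heisRel = 0 := by
  have c1 : sg gz * sg gx = sg gx * sg gz := by rw [sg_mul, sg_mul, comm_xz.eq]
  have c2 : sg gz * sg gy = sg gy * sg gz := by rw [sg_mul, sg_mul, comm_yz.eq]
  have c3 : sg gx * sg gy = sg gy * (sg gz * sg gx) := by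
    rw [sg_mul, sg_mul, sg_mul, rel_xy, ← comm_xz.eq, mul_assoc]
  have c4 : sg gz * (sg gy * sg gz) = sg gy * (sg gz * sg gz) := by
    rw [← mul_assoc, c2, mul_assoc]
  rw [bd₂_eq]
  ext1 i j
  fin_cases i <;> fin_cases j <;>
    simp [bd₃, Matrix.mul_apply, Fin.sum_univ_four, mul_sub, sub_mul, mul_assoc, c3, c4]
  · abel
  · rw [c1]
    abel
  · rw [c2]
    abel

end Pool.Agent.Lib.MP_75c153_gt
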