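import Mathlib

/-! Finite spectral families and their limit measures. -/

namespace Pool.Agent.Lib.MP_75c153_gt

open MeasureTheory Filter Topology Polynomial

/-- Two multisets of reals with the same positive power sums give the same sums for every
function vanishing at zero. -/
theorem multiset_sum_eq_of_powers (s t : Multiset ℝ)
    (h : ∀ k : ℕ, (s.map fun x => x ^ (k + 1)).sum = (t.map fun x => x ^ (k + 1)).sum)
    (f : ℝ → ℝ) (hf : f 0 = 0) : (s.map f).sum = (t.map f).sum := by
  classical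
  set F : Finset ℝ := insert 0 (s + t).toFinset with hF
  set p : ℝ[X] := Lagrange.interpolate F id f with hp
  have hev : ∀ x ∈ F, p.eval x = f x := fun x hx =>
    Lagrange.eval_interpolate_at_node (v := id) f (Set.injOn_id _) hx
  have h0 : p.coeff 0 = 0 := by
    rw [coeff_zero_eq_eval_zero, hev 0 (by simp [hF]), hf]
  have key : ∀ u : Multiset ℝ, (u.map fun x => p.eval x).sum =
      ∑ k ∈ Finset.range p.natDegree, p.coeff (k + 1) * (u.map fun x => x ^ (k + 1)).sum := by
    intro u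
    induction u using Multiset.induction_on with
    | empty => simp
    | cons a u ih =>
      simp only [Multiset.map_cons, Multiset.sum_cons, ih, mul_add, Finset.sum_add_distrib]
      congr 1
      rw [eval_eq_sum_range, Finset.sum_range_succ', h0]
      simp
  have hs : (s.map f).sum = (s.map fun x => p.eval x).sum := by
    congr 1
    exact Multiset.map_congr rfl fun x hx => (hev x (by simp [hF, hx])).symm
  have ht : (t.map f).sum = (t.map fun x => p.eval x).sum := by
    congr 1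
    exact Multiset.map_congr rfl fun x hx => (hev x (by simp [hF, hx])).symm
  rw [hs, ht, key, key]
  simp only [h]

theorem integrable_of_cpt {μ : Measure ℝ} [IsFiniteMeasure μ] {R : ℝ}
    (hR : μ (Set.Icc (-R) R)ᶜ = 0) {f : ℝ → ℝ} (hf : Continuous f) : Integrable f μ := by
  have h1 : μ.restrict (Set.Icc (-R) R) = μ :=
    Measure.restrict_eq_self_of_ae_mem (mem_ae_iff.2 hR)
  rw [← h1]
  exact hf.continuousOn.integrableOn_compact isCompact_Icc

theorem cpt_mono {μ : Measure ℝ} {R S : ℝ} (hR : μ (Set.Icc (-R) R)ᶜ = 0) (h : R ≤ S) :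
    μ (Set.Icc (-S) S)ᶜ = 0 :=
  measure_mono_null (Set.compl_subset_compl.2 (Set.Icc_subset_Icc (by linarith) h)) hR

theorem integral_poly {μ : Measure ℝ} [IsFiniteMeasure μ] {R : ℝ}
    (hR : μ (Set.Icc (-R) R)ᶜ = 0) (p : ℝ[X]) :
    ∫ x, p.eval x ∂μ = ∑ k ∈ Finset.range (p.natDegree + 1), p.coeff k * ∫ x, x ^ k ∂μ := by
  simp_rw [eval_eq_sum_range]
  rw [integral_finsetSum]
  · simp_rw [integral_const_mul]
  · intro k _
    exact integrable_of_cpt hR (by fun_prop)

/-- Weierstrass comparison of two compactly supported finite measures. -/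
theorem moment_close (R C ε : ℝ) (hε : 0 < ε) (f : ℝ → ℝ) (hf : Continuous f) :
    ∃ d : ℕ, ∀ (μ ν : Measure ℝ) [IsFiniteMeasure μ] [IsFiniteMeasure ν],
      μ (Set.Icc (-R) R)ᶜ = 0 → ν (Set.Icc (-R) R)ᶜ = 0 → μ.real Set.univ ≤ C →
      (∀ k ≤ d, ∫ x, x ^ k ∂μ = ∫ x, x ^ k ∂ν) → |∫ x, f x ∂μ - ∫ x, f x ∂ν| ≤ ε := by
  have hpos : 0 < ε / (2 * |C| + 1) := by positivity
  obtain ⟨p, hp⟩ := exists_polynomial_near_of_continuousOn (-R) R f hf.continuousOn _ hpos
  refine ⟨p.natDegree, fun μ ν _ _ hμ hν hC hm => ?_⟩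
  have hmass : ν.real Set.univ = μ.real Set.univ := by
    have := hm 0 (Nat.zero_le _)
    simpa using this.symm
  have hpp : ∫ x, p.eval x ∂μ = ∫ x, p.eval x ∂ν := by
    rw [integral_poly hμ, integral_poly hν]
    refine Finset.sum_congr rfl fun k hk => ?_
    rw [hm k (by simpa [Nat.lt_succ_iff] using hk)]
  have hb : ∀ (κ : Measure ℝ) [IsFiniteMeasure κ], κ (Set.Icc (-R) R)ᶜ = 0 →
      |∫ x, f x ∂κ - ∫ x, p.eval x ∂κ| ≤ ε / (2 * |C| + 1) * κ.real Set.univ := by
    intro κ _ hκ
    rw [← integral_sub (integrable_of_cpt hκ hf) (integrable_of_cpt hκ p.continuous)]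
    have := norm_integral_le_of_norm_le_const (μ := κ) (f := fun x => f x - p.eval x)
      (C := ε / (2 * |C| + 1)) (by
        have : ∀ᵐ x ∂κ, x ∈ Set.Icc (-R) R := mem_ae_iff.2 hκ
        filter_upwards [this] with x hx
        rw [Real.norm_eq_abs, abs_sub_comm]
        exact (hp x hx).le)
    simpa using this
  have h1 := hb μ hμ
  have h2 := hb ν hν
  rw [hmass] at h2
  have h3 : μ.real Set.univ ≤ |C| := hC.trans (le_abs_self C)
  have h4 : ε / (2 * |C| + 1) * μ.real Set.univ * 2 ≤ ε := by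
    rw [mul_assoc, div_mul_eq_mul_div, div_le_iff₀ (by positivity)]
    have : μ.real Set.univ * 2 ≤ 2 * |C| + 1 := by linarith
    exact mul_le_mul_of_nonneg_left this hε.le
  rw [abs_le] at h1 h2 ⊢
  constructor <;> linarith [h1.1, h1.2, h2.1, h2.2]

/-- Uniqueness of compactly supported finite measures with given moments. -/
theorem measure_eq_of_moments (μ ν : Measure ℝ) [IsFiniteMeasure μ] [IsFiniteMeasure ν]
    {R S : ℝ} (hμ : μ (Set.Icc (-R) R)ᶜ = 0) (hν : ν (Set.Icc (-S) S)ᶜ = 0)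
    (hm : ∀ k : ℕ, ∫ x, x ^ k ∂μ = ∫ x, x ^ k ∂ν) : μ = ν := by
  apply ext_of_forall_integral_eq_of_IsFiniteMeasure
  intro f
  have : ∀ ε > 0, |∫ x, f x ∂μ - ∫ x, f x ∂ν| ≤ ε := by
    intro ε hε
    obtain ⟨d, hd⟩ := moment_close (max R S) (μ.real Set.univ) ε hε f f.continuous
    exact hd μ ν (cpt_mono hμ (le_max_left _ _)) (cpt_mono hν (le_max_right _ _)) le_rfl
      fun k _ => hm k
  have h0 : |∫ x, f x ∂μ - ∫ x, f x ∂ν| ≤ 0 := le_of_forall_pos_le_add (by simpa using this)
  have := abs_nonpos_iff.1 h0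
  linarith

/-- Equal positive moments force equal restrictions to the positive half-line. -/
theorem restrict_eq_of_moments (μ ν : Measure ℝ) [IsFiniteMeasure μ] [IsFiniteMeasure ν]
    {R S : ℝ} (hμ : μ (Set.Icc (-R) R)ᶜ = 0) (hν : ν (Set.Icc (-S) S)ᶜ = 0)
    (hm : ∀ k : ℕ, ∫ x, x ^ (k + 1) ∂μ = ∫ x, x ^ (k + 1) ∂ν) :
    μ.restrict (Set.Ioi 0) = ν.restrict (Set.Ioi 0) := by
  set a : NNReal := (μ Set.univ).toNNReal
  set b : NNReal := (ν Set.univ).toNNReal
  have hd : ∀ T : ℝ, (Measure.dirac (0 : ℝ)) (Set.Icc (-|T|) |T|)ᶜ = 0 := by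
    intro T
    rw [Measure.dirac_apply' _ measurableSet_Icc.compl]
    simp
  have hμ' := cpt_mono hμ (le_abs_self R)
  have hν' := cpt_mono hν (le_abs_self S)
  have e : μ + b • Measure.dirac (0 : ℝ) = ν + a • Measure.dirac (0 : ℝ) := by
    refine measure_eq_of_moments _ _ (R := |R|) (S := |S|) ?_ ?_ ?_
    · simp [hμ', hd]
    · simp [hν', hd]
    · intro k
      have i1 : Integrable (fun x : ℝ => x ^ k) (b • Measure.dirac (0 : ℝ)) :=
        integrable_of_cpt (R := |R|) (by simp [hd]) (by fun_prop)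
      have i2 : Integrable (fun x : ℝ => x ^ k) (a • Measure.dirac (0 : ℝ)) :=
        integrable_of_cpt (R := |R|) (by simp [hd]) (by fun_prop)
      rw [integral_add_measure (integrable_of_cpt hμ (by fun_prop)) i1,
        integral_add_measure (integrable_of_cpt hν (by fun_prop)) i2,
        integral_smul_nnreal_measure, integral_smul_nnreal_measure, integral_dirac]
      cases k with
      | zero =>
        simp only [pow_zero, integral_const, smul_eq_mul, mul_one, NNReal.smul_def]
        simp only [a, b, Measure.real, ENNReal.coe_toNNReal_eq_toReal]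
        ring
      | succ k => simp [hm k]
  have := congrArg (fun κ : Measure ℝ => κ.restrict (Set.Ioi 0)) e
  simpa [Measure.restrict_add, Measure.restrict_smul, restrict_dirac] using this

/-- The weighted counting measure of a multiset. -/
noncomputable def famMeasure (w : ℝ) (s : Multiset ℝ) : Measure ℝ :=
  w.toNNReal • (s.map Measure.dirac).sum

theorem dirac_sum_finite (s : Multiset ℝ) : IsFiniteMeasure (s.map Measure.dirac).sum := by
  induction s using Multiset.induction_on with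
  | empty => simpa using (inferInstance : IsFiniteMeasure (0 : Measure ℝ))
  | cons a s ih =>
    simp only [Multiset.map_cons, Multiset.sum_cons]
    infer_instance

instance famMeasure_finite (w : ℝ) (s : Multiset ℝ) : IsFiniteMeasure (famMeasure w s) := by
  have := dirac_sum_finite s
  unfold famMeasure
  infer_instance

theorem dirac_sum_null (s : Multiset ℝ) {K : Set ℝ} (hK : MeasurableSet K) (h : ∀ x ∈ s, x ∈ K) :
    (s.map Measure.dirac).sum Kᶜ = 0 := by
  induction s using Multiset.induction_on with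
  | empty => simp
  | cons a s ih =>
    simp only [Multiset.map_cons, Multiset.sum_cons, Measure.add_apply]
    rw [ih fun x hx => h x (by simp [hx]), Measure.dirac_apply' _ hK.compl]
    simp [h a (by simp)]

theorem famMeasure_null (w : ℝ) (s : Multiset ℝ) {K : Set ℝ} (hK : MeasurableSet K)
    (h : ∀ x ∈ s, x ∈ K) : famMeasure w s Kᶜ = 0 := by
  simp [famMeasure, dirac_sum_null s hK h]

theorem integral_dirac_sum (s : Multiset ℝ) (f : ℝ → ℝ) :
    Integrable f (s.map Measure.dirac).sum ∧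
      ∫ x, f x ∂(s.map Measure.dirac).sum = (s.map f).sum := by
  induction s using Multiset.induction_on with
  | empty => simp
  | cons a s ih =>
    simp only [Multiset.map_cons, Multiset.sum_cons]
    have ia : Integrable f (Measure.dirac a) := integrable_dirac (by simp)
    refine ⟨ia.add_measure ih.1, ?_⟩
    rw [integral_add_measure ia ih.1, ih.2, integral_dirac]

theorem integral_famMeasure {w : ℝ} (hw : 0 ≤ w) (s : Multiset ℝ) (f : ℝ → ℝ) : ∫ x, f x ∂(famMeasure w s) = w * (s.map f).sum := by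
  rw [famMeasure, integral_smul_nnreal_measure, (integral_dirac_sum s f).2, NNReal.smul_def,
    Real.coe_toNNReal _ hw, smul_eq_mul]

/-- A sequence of weighted finite spectra in `[0, R]` whose moments stabilise to `τ`. -/
structure Fam (τ : ℕ → ℝ) (R : ℝ) (w : ℕ → ℝ) (s : ℕ → Multiset ℝ) : Prop where
  w_nonneg : ∀ n, 0 ≤ w n
  mem : ∀ n, ∀ x ∈ s n, 0 ≤ x ∧ x ≤ R
  mom : ∀ k : ℕ, ∀ᶠ n in atTop, w n * ((s n).map fun x => x ^ k).sum = τ k

theorem Fam.tendsto {τ : ℕ → ℝ} {R : ℝ} {w : ℕ → ℝ} {s : ℕ → Multiset ℝ} (h : Fam τ R w s)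
    (μ : Measure ℝ) [IsFiniteMeasure μ] {S : ℝ} (hμ : μ (Set.Icc (-S) S)ᶜ = 0)
    (hm : ∀ k : ℕ, ∫ x, x ^ k ∂μ = τ k) (f : ℝ → ℝ) (hf : Continuous f) :
    Tendsto (fun n => w n * ((s n).map f).sum) atTop (𝓝 (∫ x, f x ∂μ)) := by
  rw [Metric.tendsto_nhds]
  intro ε hε
  obtain ⟨d, hd⟩ := moment_close (max |R| S) (μ.real Set.univ) (ε / 2) (by positivity) f hf
  have hev : ∀ᶠ n in atTop, ∀ k ∈ Finset.range (d + 1),
      w n * ((s n).map fun x => x ^ k).sum = τ k := by
    rw [Finset.eventually_all]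
    exact fun k _ => h.mom k
  filter_upwards [hev] with n hn
  have := hd μ (famMeasure (w n) (s n)) (cpt_mono hμ (le_max_right _ _))
    (famMeasure_null _ _ measurableSet_Icc fun x hx => by
      have h1 := h.mem n x hx
      have h2 := le_abs_self R
      have h3 := abs_nonneg R
      have h4 := le_max_left |R| S
      constructor <;> linarith [h1.1, h1.2]) le_rfl
    (fun k hk => by
      rw [hm k, integral_famMeasure (h.w_nonneg n) _ _,
        hn k (by simpa [Nat.lt_succ_iff] using hk)])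
  rw [integral_famMeasure (h.w_nonneg n) _ _] at this
  rw [Real.dist_eq, abs_sub_comm]
  linarith

theorem Fam.exists_measure {τ : ℕ → ℝ} {R : ℝ} {w : ℕ → ℝ} {s : ℕ → Multiset ℝ}
    (h : Fam τ R w s) : ∃ μ : Measure ℝ, IsFiniteMeasure μ ∧ μ (Set.Icc 0 |R|)ᶜ = 0 ∧
      ∀ k : ℕ, ∫ x, x ^ k ∂μ = τ k := by
  let ν : ℕ → FiniteMeasure ℝ := fun n => ⟨famMeasure (w n) (s n), inferInstance⟩
  have hnull : ∀ n, famMeasure (w n) (s n) (Set.Icc 0 |R|)ᶜ = 0 := fun n =>
    famMeasure_null _ _ measurableSet_Icc fun x hx =>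
      ⟨(h.mem n x hx).1, (h.mem n x hx).2.trans (le_abs_self R)⟩
  have hK := isCompact_setOfPred_finiteMeasure_le_of_isCompact (E := ℝ) (τ 0).toNNReal
    (isCompact_Icc (a := (0 : ℝ)) (b := |R|))
  let U : Ultrafilter ℕ := Ultrafilter.of atTop
  have hU : (U : Filter ℕ) ≤ atTop := Ultrafilter.of_le _
  have hin : (↑(U.map ν) : Filter (FiniteMeasure ℝ)) ≤ 𝓟 {μ : FiniteMeasure ℝ |
      μ.mass ≤ (τ 0).toNNReal ∧ μ (Set.Icc 0 |R|)ᶜ = 0} := by
    rw [Ultrafilter.coe_map, le_principal_iff, mem_map]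
    filter_upwards [hU (h.mom 0)] with n hn
    refine ⟨?_, ?_⟩
    · have h1 := integral_famMeasure (h.w_nonneg n) (s n) (fun x => x ^ 0)
      rw [hn] at h1
      simp only [pow_zero, integral_const, smul_eq_mul, mul_one] at h1
      rw [← h1, ← NNReal.coe_le_coe, Real.coe_toNNReal _ measureReal_nonneg]
      exact le_of_eq rfl
    · exact (FiniteMeasure.null_iff_toMeasure_null _ _).2 (hnull n)
  obtain ⟨μ, hμ, hlim⟩ := hK.ultrafilter_le_nhds (U.map ν) hin
  have hμ0 : (μ : Measure ℝ) (Set.Icc 0 |R|)ᶜ = 0 :=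
    (FiniteMeasure.null_iff_toMeasure_null _ _).1 hμ.2
  refine ⟨μ, inferInstance, hμ0, fun k => ?_⟩
  have hlim' : Tendsto ν U (𝓝 μ) := hlim
  rw [FiniteMeasure.tendsto_iff_forall_integral_tendsto] at hlim'
  let g : BoundedContinuousFunction ℝ ℝ := BoundedContinuousFunction.mkOfBound
    ⟨fun x => (max 0 (min x |R|)) ^ k, by fun_prop⟩ (2 * |R| ^ k) (by
      intro x y
      have hb : ∀ z : ℝ, |(max 0 (min z |R|)) ^ k| ≤ |R| ^ k := by
        intro z
        rw [abs_pow]
        apply pow_le_pow_left₀ (abs_nonneg _)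
        rw [abs_of_nonneg (le_max_left _ _)]
        exact max_le (abs_nonneg _) (min_le_right _ _)
      have h1 := hb x
      have h2 := hb y
      simp only [ContinuousMap.coe_mk, Real.dist_eq]
      rw [abs_le] at h1 h2 ⊢
      constructor <;> linarith [h1.1, h1.2, h2.1, h2.2])
  have hg : ∀ κ : Measure ℝ, κ (Set.Icc 0 |R|)ᶜ = 0 → ∫ x, g x ∂κ = ∫ x, x ^ k ∂κ := by
    intro κ hκ
    apply integral_congr_ae
    have : ∀ᵐ x ∂κ, x ∈ Set.Icc 0 |R| := mem_ae_iff.2 hκ
    filter_upwards [this] with x hx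
    change (max 0 (min x |R|)) ^ k = x ^ k
    rw [min_eq_left hx.2, max_eq_right hx.1]
  have h1 := hlim' g
  rw [hg _ hμ0] at h1
  have h2 : Tendsto (fun n => ∫ x, g x ∂(ν n : Measure ℝ)) U (𝓝 (τ k)) := by
    apply tendsto_const_nhds.congr'
    filter_upwards [hU (h.mom k)] with n hn
    change τ k = ∫ x, g x ∂(famMeasure (w n) (s n))
    rw [hg _ (hnull n), integral_famMeasure (h.w_nonneg n) _ _, hn]
  exact tendsto_nhds_unique h1 h2

end Pool.Agent.Lib.MP_75c153_gt
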